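import Pool.Agent.Helper26.Rg.Lw

/-! # The correlation measure gives mass zero to `C¹` curves: definitions and statements -/

set_option autoImplicit false

open MeasureTheory Filter Topology ProbabilityTheory
open scoped BigOperators ENNReal NNReal InnerProductSpace ComplexConjugate

namespace Pool.Agent.Helper26.Cc

open Pool.Agent.H5R2.NB Pool.Agent.Helper26.Nb Pool.Agent.Helper26.Cm Pool.Agent.Helper26.Dj
  Pool.Agent.Helper26.Rg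
open Pool.Agent.TH369.AN (Rz pt ro cp fc)
open Pool.Agent.TH369.MU (zk ep)

/-- `f` is a `C¹` diffeomorphism of the line with derivative `g`, bounded above and below, and
inverse `h`, almost without fixed points -/
structure Cur (h f g : ℝ → ℝ) : Prop where
  hf : ∀ x, f (h x) = x
  fh : ∀ E, h (f E) = E
  der : ∀ E, HasDerivAt f (g E) E
  cont : Continuous g
  bd : ∃ m M : ℝ, 0 < m ∧ ∀ E, m ≤ |g E| ∧ |g E| ≤ M
  fix : volume {E : ℝ | f E = E} = 0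

/-- the point `f(E) + i f'(E) ε_k` -/
noncomputable def zc (f g : ℝ → ℝ) (E : ℝ) (k : ℕ) : ℂ :=
  (f E : ℂ) + ((g E * ep k : ℝ) : ℂ) * Complex.I

/-- STR: the resolvent of `h(S)` at `E + iε` against the resolvent of `S` at `f(E) + i f'(E) ε` -/
def S_Str : Prop :=
  ∀ (ι : Type) (S : L2 ι →L[ℂ] L2 ι), IsSelfAdjoint S → ∀ (h f g : ℝ → ℝ), Cur h f g →
    ∀ W' : UG (L2 ι), Gen W' (fc h S) → ∀ x : L2 ι,
      (∀ k, Integrable fun E : ℝ =>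
        ‖La W' x E (ep k) + (Complex.I * g E) • Rz S (zc f g E k) x‖ ^ 2) ∧
      (∀ k, Integrable fun E : ℝ =>
        ‖La (rev W') x (-E) (ep k) - (Complex.I * g E) • Rz S (conj (zc f g E k)) x‖ ^ 2) ∧
      Tendsto (fun k => ep k * ∫ E : ℝ,
        ‖La W' x E (ep k) + (Complex.I * g E) • Rz S (zc f g E k) x‖ ^ 2) atTop (𝓝 0) ∧
      Tendsto (fun k => ep k * ∫ E : ℝ,
        ‖La (rev W') x (-E) (ep k) - (Complex.I * g E) • Rz S (conj (zc f g E k)) x‖ ^ 2)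
        atTop (𝓝 0)

/-- LIM: boundary values along the curve -/
def S_Lim : Prop :=
  ∀ (ι : Type) (T : L2 ι →L[ℂ] L2 ι), IsSelfAdjoint T → ∀ e : L2 ι, ‖e‖ = 1 →
    ∀ (h f g : ℝ → ℝ), Cur h f g →
      ∀ᵐ E : ℝ, ∃ l : ℝ, Tendsto (fun k => (wf T e (zc f g E k)).im) atTop (𝓝 l) ∧
        (l ≠ 0 → ∃ W : ℂ, Tendsto (fun k => wf T e (zc f g E k)) atTop (𝓝 W))

/-- BIG: large values of the Weyl function are rare -/
def S_Big : Prop :=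
  ∀ (h f g : ℝ → ℝ), Cur h f g → ∀ (K L η : ℝ), 0 < η → ∃ R₀ : ℝ, 0 < R₀ ∧
    ∀ (ι : Type) (T : L2 ι →L[ℂ] L2 ι), IsSelfAdjoint T → ‖T‖ ≤ K → ∀ e : L2 ι, ‖e‖ = 1 →
      ∀ k : ℕ, volume {E : ℝ | E ∈ Set.Icc (-L) L ∧ R₀ < ‖wf T e (zk E k)‖} ≤ ENNReal.ofReal η ∧
        volume {E : ℝ | E ∈ Set.Icc (-L) L ∧ R₀ < ‖wf T e (zc f g E k)‖} ≤ ENNReal.ofReal η

/-- MOB: the Weyl function as a function of the potential at another site -/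
def S_Mob : Prop :=
  ∀ (ι : Type) (T : L2 ι →L[ℂ] L2 ι), IsSelfAdjoint T → ∀ e e' : L2 ι, ‖e‖ = 1 → ‖e'‖ = 1 →
    ⟪e, e'⟫_ℂ = 0 → ∀ z : ℂ, z.im ≠ 0 → ∀ κ : ℝ,
      wf (pt T e' κ) e z * (wf (cp T e) e' z - κ) = wf (cp T e') e z * (wf T e' z - κ)

/-- TWO: two Weyl functions are rarely close to each other -/
def S_Two : Prop :=
  ∀ (ι : Type) (T : L2 ι →L[ℂ] L2 ι), IsSelfAdjoint T → ∀ e e' : L2 ι, ‖e‖ = 1 → ‖e'‖ = 1 →
    ⟪e, e'⟫_ℂ = 0 → ∀ z z' : ℂ, z.im ≠ 0 → z'.im ≠ 0 → ∀ R R₀ δ δ₁ : ℝ, 0 < R → 0 < R₀ → 0 < δ →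
      0 < δ₁ → δ₁ ≤ ‖wf (cp T e') e z - wf (cp T e') e z'‖ → ‖wf (cp T e) e' z‖ ≤ R₀ →
        ‖wf (cp T e) e' z'‖ ≤ R₀ →
          volume {κ : ℝ | κ ∈ Set.Icc (-R) R ∧
            ‖wf (pt T e' κ) e z - wf (pt T e' κ) e z'‖ < δ} ≤
              ENNReal.ofReal (4 * (R₀ + R) * Real.sqrt (δ / δ₁))

/-- the potential, cut off at `± R` -/
noncomputable def cl {d : ℕ} (R : ℝ) (V : Site d → ℝ) : Site d → ℝ := pot (fun r => max (-R) (min R r)) V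

lemma cl_le {d : ℕ} {R : ℝ} (hR : 0 ≤ R) (V : Site d → ℝ) (x : Site d) : |cl R V x| ≤ R := by
  unfold cl pot
  rw [abs_le]
  exact ⟨le_max_left _ _, max_le (by linarith) (min_le_left _ _)⟩

/-- the operator with the cut off potential -/
noncomputable def TC {d : ℕ} (c : ℝ) {R : ℝ} (hR : 0 ≤ R) (V : Site d → ℝ) :
    L2 (Site d) →L[ℂ] L2 (Site d) := TV c (cl R V) R (cl_le hR V)

/-- SEP: the two Weyl functions are separated along the curve, almost surely, on a subsequence -/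
def S_Sep : Prop :=
  ∀ (d : ℕ) (c : ℝ) (R : ℝ) (hR : 0 ≤ R) (ρ : Measure ℝ), IsProbabilityMeasure ρ →
    ∀ D : ℝ≥0, ρ ≤ D • (volume : Measure ℝ) → (∀ᵐ κ ∂ρ, |κ| ≤ R) → ∀ (h f g : ℝ → ℝ), Cur h f g → ∀ Mk : ℕ → ℕ, Tendsto Mk atTop atTop →
      ∀ᵐ V ∂(Measure.infinitePi fun _ : Site d => ρ), ∃ φ : ℕ → ℕ, StrictMono φ ∧
        ∀ L η : ℝ, 0 < η → ∃ δ : ℝ, 0 < δ ∧ ∀ᶠ k in atTop,
          volume {E : ℝ | E ∈ Set.Icc (-L) L ∧
            ‖wf (TC c hR (Function.update V 0 0)) (dl 0) (zc f g E (Mk (φ k))) -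
              wf (TC c hR (Function.update V 0 0)) (dl 0) (zk E (Mk (φ k)))‖ < δ} ≤
                ENNReal.ofReal η

/-- GRP: the group of a bounded self-adjoint operator -/
def S_Grp : Prop :=
  ∀ (ι : Type) (S : L2 ι →L[ℂ] L2 ι), IsSelfAdjoint S → ∃ W : UG (L2 ι), Gen W S

/-- CYC: the group of `h(pt T e κ)` and the cyclic space of `e`; `U κ` is the group of
`pt T e κ` -/
def S_Cyc : Prop :=
  ∀ (ι : Type) (T : L2 ι →L[ℂ] L2 ι), IsSelfAdjoint T → ∀ e : L2 ι,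
    ∀ U U' : ℝ → UG (L2 ι), (∀ κ, Gen (U κ) (pt T e κ)) →
      ∀ (h f g : ℝ → ℝ), Cur h f g → (∀ κ, Gen (U' κ) (fc h (pt T e κ))) →
        (∀ κ φ, φ ∈ Kc (U' κ) e ↔ φ ∈ Kc (U 0) e) ∧
        (∀ κ t φ, φ ∈ Kc (U 0) e → (U' κ).U t φ = (U' 0).U t φ)

/-- CE: covariance and measurability of the group of `h(H_V)` -/
def S_CE : Prop :=
  ∀ (d : ℕ) (c : ℝ) (R : ℝ) (hR : 0 ≤ R) (h : ℝ → ℝ), Continuous h →
    ∀ W : (Site d → ℝ) → UG (L2 (Site d)), (∀ V, Gen (W V) (fc h (TC c hR V))) → CE W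

/-- MAR: the marginals of a correlation measure have no mass on null sets -/
def S_Mar : Prop :=
  ∀ (d : ℕ) (c : ℝ) (R : ℝ) (ρ : Measure ℝ), IsProbabilityMeasure ρ →
    ∀ D : ℝ≥0, ρ ≤ D • (volume : Measure ℝ) → (∀ᵐ κ ∂ρ, |κ| ≤ R) → ∀ ev : (Site d → ℝ) → UG (L2 (Site d)), (∀ V, IsGrp c V (ev V)) →
      ∀ X : (Site d → ℝ) → L2 (Site d) →L[ℂ] L2 (Site d), Cv X →
        ∀ m : Measure (ℝ × ℝ), IsFiniteMeasure m →
          (∀ s t : ℝ, ∫ p, Complex.exp (Complex.I * (s * p.1 + t * p.2)) ∂m =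
            ∫ V, ⟪X V (dl 0), (ev V).U (-s) (X V ((ev V).U (-t) (dl 0)))⟫_ℂ
              ∂(Measure.infinitePi fun _ : Site d => ρ)) →
          ∀ N : Set ℝ, volume N = 0 → m (N ×ˢ Set.univ) = 0 ∧ m (Set.univ ×ˢ N) = 0

/-- CUR: from the curves of the structure `Cur` to all `C¹` curves -/
def S_Cur : Prop :=
  ∀ m : Measure (ℝ × ℝ), IsFiniteMeasure m →
    (∀ N : Set ℝ, volume N = 0 → m (N ×ˢ Set.univ) = 0 ∧ m (Set.univ ×ˢ N) = 0) →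
    (∀ h f g : ℝ → ℝ, Cur h f g → m {p | p.1 = f p.2} = 0) →
      ∀ γ : ℝ → ℝ × ℝ, ContDiff ℝ 1 γ → m {p | p ∈ Set.range γ ∧ p.1 ≠ p.2} = 0

end Pool.Agent.Helper26.Cc
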