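import Pool.Agent.Helper26.Cc.Stm

/-! # The fibre over one site: two energies on a curve -/

set_option autoImplicit false

open MeasureTheory Filter Topology
open scoped ENNReal NNReal ComplexConjugate InnerProductSpace

namespace Pool.Agent.Helper26.Cc

open Pool.Agent.H5R2.NB Pool.Agent.Helper26.Nb Pool.Agent.Helper26.Cm Pool.Agent.Helper26.Dj
  Pool.Agent.Helper26.Rg
open Pool.Agent.TH369.AN (Rz rz_uniq rz_eq rz_norm pt pt_sa fc)
open Pool.Agent.TH369.MU (zk ep)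

lemma fc_sa {X : Type} [NormedAddCommGroup X] [InnerProductSpace ℂ X] [CompleteSpace X]
    (h : ℝ → ℝ) (T : X →L[ℂ] X) : IsSelfAdjoint (fc h T) := by
  unfold fc
  exact cfc_predicate h T

section cur

variable {h f g : ℝ → ℝ}

lemma Cur.g0 (c : Cur h f g) (E : ℝ) : g E ≠ 0 := by
  obtain ⟨m, M, hm, hb⟩ := c.bd
  intro h0
  have := (hb E).1
  rw [h0, abs_zero] at this
  linarith

lemma Cur.fcont (c : Cur h f g) : Continuous f :=
  continuous_iff_continuousAt.2 fun E => (c.der E).continuousAt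

lemma zc_im (f g : ℝ → ℝ) (E : ℝ) (k : ℕ) : (zc f g E k).im = g E * ep k := by
  unfold zc
  simp

lemma ep_pos (j : ℕ) : 0 < ep j := by unfold ep; positivity

lemma zk_im (E : ℝ) (j : ℕ) : (zk E j).im = ep j := by unfold zk; simp

lemma zk_ne (E : ℝ) (j : ℕ) : (zk E j).im ≠ 0 := by rw [zk_im]; exact (ep_pos j).ne'

lemma czk_ne (E : ℝ) (j : ℕ) : (conj (zk E j)).im ≠ 0 := by
  rw [Complex.conj_im]; exact neg_ne_zero.2 (zk_ne E j)

lemma zk_cont (j : ℕ) : Continuous fun E : ℝ => zk E j := by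
  unfold zk
  fun_prop

lemma Cur.zne (c : Cur h f g) (E : ℝ) (k : ℕ) : (zc f g E k).im ≠ 0 := by
  rw [zc_im]
  exact mul_ne_zero (c.g0 E) (ep_pos k).ne'

lemma Cur.czne (c : Cur h f g) (E : ℝ) (k : ℕ) : (conj (zc f g E k)).im ≠ 0 := by
  rw [Complex.conj_im]; exact neg_ne_zero.2 (c.zne E k)

lemma Cur.zcont (c : Cur h f g) (k : ℕ) : Continuous fun E : ℝ => zc f g E k := by
  have h1 := c.fcont
  have h2 := c.cont
  unfold zc
  fun_prop

end cur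

variable {ι : Type}

/-- The data of the fibre. -/
structure Fic (T : L2 ι →L[ℂ] L2 ι) (e : L2 ι) (h f g : ℝ → ℝ) (U U' : ℝ → UG (L2 ι)) : Prop where
  sa : IsSelfAdjoint T
  he : ‖e‖ = 1
  cur : Cur h f g
  gen : ∀ κ, Gen (U κ) (pt T e κ)
  gen' : ∀ κ, Gen (U' κ) (fc h (pt T e κ))

/-- the numerators -/
noncomputable def nc (T : L2 ι →L[ℂ] L2 ι) (e : L2 ι) (g : ℝ → ℝ) (v : L2 ι →L[ℂ] L2 ι) (j : ℕ)
    (E : ℝ) (z2 z : ℂ) : ℂ := ((g E * ep j : ℝ) : ℂ) * ⟪uf T e z2, v (uf T e z)⟫_ℂ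

namespace Fic

variable {T : L2 ι →L[ℂ] L2 ι} {e : L2 ι} {h f g : ℝ → ℝ} {U U' : ℝ → UG (L2 ι)}

lemma e0 (F : Fic T e h f g U U') : e ≠ 0 := by
  intro h
  have := F.he
  rw [h, norm_zero] at this
  exact zero_ne_one this

/-- the norm bound of the numerators -/
lemma nc_bd (F : Fic T e h f g U U') (v : L2 ι →L[ℂ] L2 ι) {M : ℝ} (hM : ∀ E, |g E| ≤ M)
    (E : ℝ) (j : ℕ) {z2 z : ℂ} (hz2 : |z2.im| = |g E| * ep j) (hz : |z.im| = ep j) {a b : ℝ}
    (h1 : |(wf T e z).im| = a) (h2 : |(wf T e z2).im| = b) :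
    ‖nc T e g v j E z2 z‖ ≤ ‖v‖ * Real.sqrt M * (Real.sqrt a * Real.sqrt b) := by
  have hep := ep_pos j
  have hg := abs_pos.2 (F.cur.g0 E)
  have z20 : z2.im ≠ 0 := by
    rw [← abs_pos, hz2]
    positivity
  have z0 : z.im ≠ 0 := by
    rw [← abs_pos, hz]
    positivity
  have e1 := wf_im F.sa F.e0 z0
  have e2 := wf_im F.sa F.e0 z20
  have e3 : Real.sqrt a = Real.sqrt (ep j) * ‖uf T e z‖ := by
    rw [← h1, e1, abs_mul, hz, abs_of_nonneg (sq_nonneg _), Real.sqrt_mul hep.le,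
      Real.sqrt_sq (norm_nonneg _)]
  have e4 : Real.sqrt b = Real.sqrt |g E| * Real.sqrt (ep j) * ‖uf T e z2‖ := by
    rw [← h2, e2, abs_mul, hz2, abs_of_nonneg (sq_nonneg ‖uf T e z2‖), Real.sqrt_mul (by positivity),
      Real.sqrt_mul hg.le, Real.sqrt_sq (norm_nonneg _)]
  rw [e3, e4]
  unfold nc
  rw [norm_mul, Complex.norm_real, Real.norm_eq_abs, abs_mul, abs_of_pos hep]
  have e5 : ‖⟪uf T e z2, v (uf T e z)⟫_ℂ‖ ≤ ‖uf T e z2‖ * (‖v‖ * ‖uf T e z‖) :=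
    (norm_inner_le_norm _ _).trans (mul_le_mul_of_nonneg_left (v.le_opNorm _) (norm_nonneg _))
  have e6 : Real.sqrt (ep j) * Real.sqrt (ep j) = ep j := Real.mul_self_sqrt hep.le
  have e7 : |g E| = Real.sqrt |g E| * Real.sqrt |g E| := (Real.mul_self_sqrt hg.le).symm
  have e8 : Real.sqrt |g E| ≤ Real.sqrt M := Real.sqrt_le_sqrt (hM E)
  calc |g E| * ep j * ‖⟪uf T e z2, v (uf T e z)⟫_ℂ‖
      ≤ |g E| * ep j * (‖uf T e z2‖ * (‖v‖ * ‖uf T e z‖)) := by gcongr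
    _ = Real.sqrt |g E| * (Real.sqrt |g E| * (Real.sqrt (ep j) * Real.sqrt (ep j)) *
          (‖uf T e z2‖ * (‖v‖ * ‖uf T e z‖))) := by
        rw [e6]
        nth_rewrite 1 [e7]
        ring
    _ ≤ Real.sqrt M * (Real.sqrt |g E| * (Real.sqrt (ep j) * Real.sqrt (ep j)) *
          (‖uf T e z2‖ * (‖v‖ * ‖uf T e z‖))) := by gcongr
    _ = _ := by ring

lemma nc_cont (F : Fic T e h f g U U') (v : L2 ι →L[ℂ] L2 ι) (j : ℕ) {a b : ℝ → ℂ}
    (ha : Continuous a) (ha0 : ∀ y, (a y).im ≠ 0) (hb : Continuous b) (hb0 : ∀ y, (b y).im ≠ 0) :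
    Continuous fun E => nc T e g v j E (a E) (b E) := by
  unfold nc
  have hg := F.cur.cont
  refine Continuous.mul (by fun_prop) ?_
  exact (cont_uf F.sa F.e0 ha ha0).inner (v.continuous.comp (cont_uf F.sa F.e0 hb hb0))

/-- the kernel in terms of the resolvents of the family -/
lemma nc_ker (F : Fic T e h f g U U') (v : L2 ι →L[ℂ] L2 ι) (j : ℕ) (E : ℝ) {z2 z : ℂ}
    (hz2 : z2.im ≠ 0) (hz : z.im ≠ 0) (κ : ℝ) :
    nc T e g v j E z2 z * ((conj (wf T e z2) - κ) * (wf T e z - κ))⁻¹ =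
      ((g E * ep j : ℝ) : ℂ) * ⟪Rz (pt T e κ) z2 e, v (Rz (pt T e κ) z e)⟫_ℂ := by
  rw [rz_pt F.sa F.e0 hz, rz_pt F.sa F.e0 hz2, map_smul, inner_smul_left, inner_smul_right]
  unfold nc
  have e1 : conj ((wf T e z2 - (κ : ℂ))⁻¹) = (conj (wf T e z2) - κ)⁻¹ := by
    rw [map_inv₀, map_sub, Complex.conj_ofReal]
  rw [e1, mul_inv]
  ring

lemma inA (a : ℝ) (x y : L2 ι) (v : L2 ι →L[ℂ] L2 ι) :
    ⟪-((Complex.I * a) • x), v (-(Complex.I • y))⟫_ℂ = (a : ℂ) * ⟪x, v y⟫_ℂ := by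
  rw [map_neg, inner_neg_neg, map_smul, inner_smul_left, inner_smul_right, map_mul,
    Complex.conj_I, Complex.conj_ofReal]
  linear_combination (-(a : ℂ) * ⟪x, v y⟫_ℂ) * Complex.I_sq

lemma inA' (a : ℝ) (x y : L2 ι) (v : L2 ι →L[ℂ] L2 ι) :
    ⟪((Complex.I * a) • x), v ((Complex.I • y))⟫_ℂ = (a : ℂ) * ⟪x, v y⟫_ℂ := by
  rw [map_smul, inner_smul_left, inner_smul_right, map_mul,
    Complex.conj_I, Complex.conj_ofReal]
  linear_combination (-(a : ℂ) * ⟪x, v y⟫_ℂ) * Complex.I_sq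

/-- the forward kernel -/
lemma ker_f (F : Fic T e h f g U U') (v : L2 ι →L[ℂ] L2 ι) (j : ℕ) (E κ : ℝ) :
    nc T e g v j E (zc f g E j) (zk E j) *
      ((conj (wf T e (zc f g E j)) - κ) * (wf T e (zk E j) - κ))⁻¹ =
      (ep j : ℂ) * ⟪-((Complex.I * g E) • Rz (pt T e κ) (zc f g E j) e),
        v (La (U κ) e E (ep j))⟫_ℂ := by
  rw [nc_ker F v j E (F.cur.zne E j) (zk_ne E j) κ]
  have h1 := rz_La (pt_sa T F.sa e κ) (F.gen κ) (ep_pos j) E e
  have h2 : La (U κ) e E (ep j) = -(Complex.I • Rz (pt T e κ) (zk E j) e) := by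
    unfold zk
    rw [h1, smul_smul, Complex.I_mul_I, neg_one_smul, neg_neg]
  rw [h2, inA]
  push_cast
  ring

/-- the backward kernel -/
lemma ker_b (F : Fic T e h f g U U') (v : L2 ι →L[ℂ] L2 ι) (j : ℕ) (E κ : ℝ) :
    nc T e g v j E (conj (zc f g E j)) (conj (zk E j)) *
      ((wf T e (zc f g E j) - κ) * (conj (wf T e (zk E j)) - κ))⁻¹ =
      (ep j : ℂ) * ⟪(Complex.I * g E) • Rz (pt T e κ) (conj (zc f g E j)) e,
        v (La (rev (U κ)) e (-E) (ep j))⟫_ℂ := by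
  have h0 := nc_ker F v j E (F.cur.czne E j) (czk_ne E j) κ
  rw [wf_conj F.sa (zk_ne E j), wf_conj F.sa (F.cur.zne E j), Complex.conj_conj] at h0
  rw [h0]
  have h1 := rz_La' (pt_sa T F.sa e κ) (F.gen κ) (ep_pos j) E e
  have h2 : La (rev (U κ)) e (-E) (ep j) = Complex.I • Rz (pt T e κ) (conj (zk E j)) e := by
    unfold zk
    rw [h1, smul_neg, smul_smul, Complex.I_mul_I, neg_one_smul, neg_neg]
  rw [h2, inA']
  push_cast
  ring

/-- pointwise bounds of the kernels -/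
lemma ker_f_le (F : Fic T e h f g U U') (v : L2 ι →L[ℂ] L2 ι) (j : ℕ) (E κ : ℝ) :
    ‖nc T e g v j E (zc f g E j) (zk E j) *
      ((conj (wf T e (zc f g E j)) - κ) * (wf T e (zk E j) - κ))⁻¹‖ ≤ ‖v‖ / ep j := by
  rw [nc_ker F v j E (F.cur.zne E j) (zk_ne E j) κ, norm_mul, Complex.norm_real,
    Real.norm_eq_abs, abs_mul, abs_of_pos (ep_pos j)]
  have h1 := rz_norm _ (pt_sa T F.sa e κ) (zk E j) (zk_ne E j) e
  have h2 := rz_norm _ (pt_sa T F.sa e κ) (zc f g E j) (F.cur.zne E j) e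
  rw [F.he, zk_im, abs_of_pos (ep_pos j)] at h1
  rw [F.he, zc_im, abs_mul, abs_of_pos (ep_pos j)] at h2
  have hep := ep_pos j
  have hg := abs_pos.2 (F.cur.g0 E)
  calc |g E| * ep j * ‖⟪Rz (pt T e κ) (zc f g E j) e, v (Rz (pt T e κ) (zk E j) e)⟫_ℂ‖
      ≤ |g E| * ep j * (‖Rz (pt T e κ) (zc f g E j) e‖ *
        (‖v‖ * ‖Rz (pt T e κ) (zk E j) e‖)) := by
        gcongr
        exact (norm_inner_le_norm _ _).trans (mul_le_mul_of_nonneg_left (v.le_opNorm _)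
          (norm_nonneg _))
    _ ≤ |g E| * ep j * (1 / (|g E| * ep j) * (‖v‖ * (1 / ep j))) := by gcongr
    _ = _ := by field_simp

lemma ker_b_le (F : Fic T e h f g U U') (v : L2 ι →L[ℂ] L2 ι) (j : ℕ) (E κ : ℝ) :
    ‖nc T e g v j E (conj (zc f g E j)) (conj (zk E j)) *
      ((wf T e (zc f g E j) - κ) * (conj (wf T e (zk E j)) - κ))⁻¹‖ ≤ ‖v‖ / ep j := by
  have h0 := nc_ker F v j E (F.cur.czne E j) (czk_ne E j) κ
  rw [wf_conj F.sa (zk_ne E j), wf_conj F.sa (F.cur.zne E j), Complex.conj_conj] at h0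
  rw [h0, norm_mul, Complex.norm_real, Real.norm_eq_abs, abs_mul, abs_of_pos (ep_pos j)]
  have h1 := rz_norm _ (pt_sa T F.sa e κ) (conj (zk E j)) (czk_ne E j) e
  have h2 := rz_norm _ (pt_sa T F.sa e κ) (conj (zc f g E j)) (F.cur.czne E j) e
  rw [F.he, Complex.conj_im, abs_neg, zk_im, abs_of_pos (ep_pos j)] at h1
  rw [F.he, Complex.conj_im, abs_neg, zc_im, abs_mul, abs_of_pos (ep_pos j)] at h2
  have hep := ep_pos j
  have hg := abs_pos.2 (F.cur.g0 E)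
  calc |g E| * ep j * ‖⟪Rz (pt T e κ) (conj (zc f g E j)) e,
        v (Rz (pt T e κ) (conj (zk E j)) e)⟫_ℂ‖
      ≤ |g E| * ep j * (‖Rz (pt T e κ) (conj (zc f g E j)) e‖ *
        (‖v‖ * ‖Rz (pt T e κ) (conj (zk E j)) e‖)) := by
        gcongr
        exact (norm_inner_le_norm _ _).trans (mul_le_mul_of_nonneg_left (v.le_opNorm _)
          (norm_nonneg _))
    _ ≤ |g E| * ep j * (1 / (|g E| * ep j) * (‖v‖ * (1 / ep j))) := by gcongr
    _ = _ := by field_simp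

lemma m_w (F : Fic T e h f g U U') (j : ℕ) : Measurable fun E : ℝ => wf T e (zk E j) :=
  (cont_wf F.sa F.e0 (zk_cont j) fun E => zk_ne E j).measurable

lemma m_w2 (F : Fic T e h f g U U') (j : ℕ) : Measurable fun E : ℝ => wf T e (zc f g E j) :=
  (cont_wf F.sa F.e0 (F.cur.zcont j) fun E => F.cur.zne E j).measurable

lemma m_n (F : Fic T e h f g U U') (v : L2 ι →L[ℂ] L2 ι) (j : ℕ) :
    Measurable fun E : ℝ => nc T e g v j E (zc f g E j) (zk E j) :=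
  (nc_cont F v j (F.cur.zcont j) (fun E => F.cur.zne E j) (zk_cont j)
    fun E => zk_ne E j).measurable

lemma m_m (F : Fic T e h f g U U') (v : L2 ι →L[ℂ] L2 ι) (j : ℕ) :
    Measurable fun E : ℝ => nc T e g v j E (conj (zc f g E j)) (conj (zk E j)) :=
  (nc_cont F v j (Complex.continuous_conj.comp (F.cur.zcont j)) (fun E => F.cur.czne E j)
    (Complex.continuous_conj.comp (zk_cont j)) fun E => czk_ne E j).measurable

end Fic

/-! ### bounded nice functions -/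

/-- nice and bounded -/
def NiceB (φ : ℝ → ℂ) : Prop := Nice φ ∧ ∃ K : ℝ, ∀ E, ‖φ E‖ ≤ K

lemma niceB_gq (m : ℕ) (q : ℝ) : NiceB (gq m q) := by
  refine ⟨nice_gq m q, 1, fun E => ?_⟩
  unfold gq
  rw [norm_mul, Complex.norm_exp, Complex.norm_exp]
  have e1 : (-Complex.I * q * E).re = 0 := by simp
  have e2 : (-(1 / (4 * ((m : ℝ) + 1)) : ℝ) * (E : ℂ) ^ 2).re =
      -(1 / (4 * ((m : ℝ) + 1))) * E ^ 2 := by
    rw [← Complex.ofReal_pow, ← Complex.ofReal_neg, ← Complex.ofReal_mul, Complex.ofReal_re]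
  rw [e1, Real.exp_zero, one_mul]
  have e3 : (-(((1 / (4 * ((m : ℝ) + 1)) : ℝ)) : ℂ) * (E : ℂ) ^ 2).re ≤ 0 := by
    rw [e2]
    have : 0 ≤ 1 / (4 * ((m : ℝ) + 1)) * E ^ 2 := by positivity
    linarith
  exact Real.exp_le_one_iff.2 e3

lemma niceB_dense {φ : ℝ → ℂ} (hf : Integrable φ) {η : ℝ} (hη : 0 < η) :
    ∃ g : ℝ → ℂ, NiceB g ∧ ∫ E, ‖φ E - g E‖ ≤ η := by
  have hf' : MemLp φ 1 volume := memLp_one_iff_integrable.2 hf
  obtain ⟨g, hg1, hg2, hg3⟩ := MemLp.exist_eLpNorm_sub_le ENNReal.one_ne_top le_rfl hf' hη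
  have hn := nice_schwartz (hg1.toSchwartzMap hg2)
  have e : ((hg1.toSchwartzMap hg2 : SchwartzMap ℝ ℂ) : ℝ → ℂ) = g := rfl
  rw [e] at hn
  refine ⟨g, ⟨hn, ?_⟩, ?_⟩
  · obtain ⟨K, hK⟩ := hg1.exists_bound_of_continuous hg2.continuous
    exact ⟨K, hK⟩
  rw [eLpNorm_one_eq_lintegral_enorm] at hg3
  have h2 : ∫ E, ‖φ E - g E‖ = (∫⁻ E, ‖(φ - g) E‖ₑ).toReal := by
    exact integral_norm_eq_lintegral_enorm (hf.sub hn.i).aestronglyMeasurable
  rw [h2]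
  exact ENNReal.toReal_le_of_le_ofReal hη.le hg3

/-- from nice bounded functions to all integrable functions -/
lemma Zt_of_niceB {X : ℕ → ℝ → ℂ} (hX : BM X) (h : ∀ f, NiceB f → Zt f X) {f : ℝ → ℂ}
    (hf : Integrable f) : Zt f X := by
  obtain ⟨hm, K, hK⟩ := hX
  have hK0 : 0 ≤ K := (norm_nonneg _).trans (hK 0 0)
  unfold Zt
  rw [Metric.tendsto_atTop]
  intro η hη
  obtain ⟨g, hg, hfg⟩ := niceB_dense hf (η := η / 2 / (K + 1)) (by positivity)
  obtain ⟨N, hN⟩ := (Metric.tendsto_atTop.1 (h g hg)) (η / 2) (by positivity)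
  refine ⟨N, fun k hk => ?_⟩
  have h1 := hN k hk
  rw [dist_zero_right] at h1 ⊢
  have i1 := (show BM X from ⟨hm, K, hK⟩).int hf k
  have i2 := (show BM X from ⟨hm, K, hK⟩).int hg.1.i k
  have e1 : ∫ E, f E * X k E = (∫ E, (f E - g E) * X k E) + ∫ E, g E * X k E := by
    have i3 : Integrable fun E => (f E - g E) * X k E :=
      (show BM X from ⟨hm, K, hK⟩).int (hf.sub hg.1.i) k
    rw [← integral_add i3 i2]
    refine integral_congr_ae (Eventually.of_forall fun E => ?_)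
    simp only
    ring
  have e2 : ‖∫ E, (f E - g E) * X k E‖ ≤ (∫ E, ‖f E - g E‖) * K := by
    rw [← integral_mul_const]
    refine norm_integral_le_of_norm_le ((hf.sub hg.1.i).norm.mul_const K)
      (Eventually.of_forall fun E => ?_)
    rw [norm_mul]
    exact mul_le_mul_of_nonneg_left (hK k E) (norm_nonneg _)
  have e3 : (∫ E, ‖f E - g E‖) * K ≤ η / 2 := by
    have h0 : 0 ≤ ∫ E, ‖f E - g E‖ := integral_nonneg fun _ => norm_nonneg _
    calc (∫ E, ‖f E - g E‖) * K ≤ (η / 2 / (K + 1)) * (K + 1) := by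
          refine mul_le_mul hfg (by linarith) hK0 (by positivity)
      _ = η / 2 := by field_simp
  rw [e1]
  calc _ ≤ ‖∫ E, (f E - g E) * X k E‖ + ‖∫ E, g E * X k E‖ := norm_add_le _ _
    _ < η := by linarith

end Pool.Agent.Helper26.Cc
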