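import Pool.Agent.Helper26.Cc.Fic
import Pool.Graph.R_seed8.TH369.MU.SM

/-! # Square integrals of resolvents along the curve -/

set_option autoImplicit false

open MeasureTheory Filter Topology
open scoped ENNReal NNReal ComplexConjugate InnerProductSpace

namespace Pool.Agent.Helper26.Cc

open Pool.Agent.H5R2.NB Pool.Agent.Helper26.Nb Pool.Agent.Helper26.Cm Pool.Agent.Helper26.Dj
  Pool.Agent.Helper26.Rg
open Pool.Agent.TH369.AN (Rz rz_uniq rz_eq rz_norm pt pt_sa fc)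
open Pool.Agent.TH369.MU (zk ep SpM spm_exists)

section cur

variable {h f g : ℝ → ℝ}

lemma Cur.low (c : Cur h f g) {m : ℝ} (hm : ∀ E, m ≤ |g E|) (x y : ℝ) :
    m * |x - y| ≤ |f x - f y| := by
  have key : ∀ a b : ℝ, a < b → m * |b - a| ≤ |f b - f a| := by
    intro a b hab
    obtain ⟨ξ, -, hξ⟩ := exists_hasDerivAt_eq_slope f g hab c.fcont.continuousOn
      fun x _ => c.der x
    have h1 : f b - f a = g ξ * (b - a) := by
      rw [hξ]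
      field_simp [sub_ne_zero.2 hab.ne']
    rw [h1, abs_mul]
    exact mul_le_mul_of_nonneg_right (hm ξ) (abs_nonneg _)
  rcases lt_trichotomy x y with h1 | h1 | h1
  · rw [abs_sub_comm x y, abs_sub_comm (f x)]
    exact key x y h1
  · rw [h1, sub_self, sub_self, abs_zero, mul_zero]
  · exact key y x h1

lemma Cur.hcont (c : Cur h f g) : Continuous h := by
  obtain ⟨m, M, hm, hb⟩ := c.bd
  have h1 : LipschitzWith (Real.toNNReal (1 / m)) h := by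
    refine LipschitzWith.of_dist_le_mul fun x y => ?_
    have h2 := c.low (fun E => (hb E).1) (h x) (h y)
    rw [c.hf, c.hf] at h2
    rw [Real.dist_eq, Real.dist_eq, Real.coe_toNNReal _ (by positivity)]
    rw [div_mul_eq_mul_div, one_mul, le_div_iff₀ hm, mul_comm]
    exact h2
  exact h1.continuous

end cur

section sq

variable {X : Type} [NormedAddCommGroup X] [InnerProductSpace ℂ X] [CompleteSpace X]

lemma rz_sq {S : X →L[ℂ] X} (hS : IsSelfAdjoint S) {x : X} {m : Measure ℝ} (hm : SpM S x m)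
    {z : ℂ} (hz : z.im ≠ 0) : ‖Rz S z x‖ ^ 2 = ∫ l : ℝ, (‖(l : ℂ) - z‖ ^ 2)⁻¹ ∂m := by
  haveI := hm.1
  have h1 := F_im (e := x) hS hz
  rw [hm.2 z hz] at h1
  have hb : ∀ l : ℝ, |z.im| ≤ ‖(l : ℂ) - z‖ := by
    intro l
    have := Complex.abs_im_le_norm ((l : ℂ) - z)
    rwa [Complex.sub_im, Complex.ofReal_im, zero_sub, abs_neg] at this
  have hz0 := abs_pos.2 hz
  have hi : Integrable (fun l : ℝ => ((l : ℂ) - z)⁻¹) m := by
    refine Integrable.of_bound (C := |z.im|⁻¹) ?_ (Eventually.of_forall fun l => ?_)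
    · refine (Continuous.inv₀ (by fun_prop) fun l => ?_).aestronglyMeasurable
      have := hb l
      exact norm_pos_iff.1 (hz0.trans_le this)
    · rw [norm_inv]
      exact inv_anti₀ hz0 (hb l)
  have h2 : (∫ l : ℝ, ((l : ℂ) - z)⁻¹ ∂m).im = ∫ l : ℝ, (((l : ℂ) - z)⁻¹).im ∂m :=
    (integral_im hi).symm
  rw [h2] at h1
  have h3 : ∀ l : ℝ, (((l : ℂ) - z)⁻¹).im = z.im * (‖(l : ℂ) - z‖ ^ 2)⁻¹ := by
    intro l
    rw [Complex.inv_im, Complex.sub_im, Complex.ofReal_im, zero_sub, neg_neg,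
      ← Complex.normSq_eq_norm_sq]
    rfl
  simp only [h3] at h1
  rw [integral_const_mul] at h1
  exact (mul_left_cancel₀ hz h1).symm

/-- square integrals -/
theorem rz_l2 {S : X →L[ℂ] X} (hS : IsSelfAdjoint S) (x : X) {z : ℝ → ℂ} (hz : Continuous z)
    (hz0 : ∀ E, (z E).im ≠ 0) {h : ℝ → ℝ} (hh : Continuous h) {c ε : ℝ} (hc : 0 < c) (hε : 0 < ε)
    (hb : ∀ l E : ℝ, c * ((h l - E) ^ 2 + ε ^ 2) ≤ ‖(l : ℂ) - z E‖ ^ 2) :
    Integrable (fun E => ‖Rz S (z E) x‖ ^ 2) ∧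
      ε * ∫ E, ‖Rz S (z E) x‖ ^ 2 ≤ Real.pi * ‖x‖ ^ 2 / c := by
  obtain ⟨m, hm, hmass⟩ := spm_exists S hS x
  haveI := hm.1
  set w : ℝ → ℂ := fun l => (h l : ℂ) - (ε : ℂ) * Complex.I with hw
  have wim : ∀ l, (w l).im = -ε := by intro l; rw [hw]; simp
  have wne : ∀ l, (w l).im ≠ 0 := fun l => by rw [wim]; exact neg_ne_zero.2 hε.ne'
  have hAk : ∀ l E : ℝ, Ak (w l) E ^ 2 = ε * ((h l - E) ^ 2 + ε ^ 2)⁻¹ := by
    intro l E
    rw [Ak_sq, wim, abs_neg, abs_of_pos hε, div_eq_mul_inv]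
    congr 2
    rw [← Complex.normSq_eq_norm_sq, Complex.normSq_apply, hw]
    simp
    ring
  have ctsG : Continuous fun p : ℝ × ℝ => Ak (w p.2) p.1 ^ 2 := by
    simp only [hAk]
    refine continuous_const.mul (Continuous.inv₀ (by fun_prop) fun p => ?_)
    positivity
  have iG : Integrable (fun p : ℝ × ℝ => Ak (w p.2) p.1 ^ 2) (volume.prod m) := by
    rw [integrable_prod_iff' ctsG.aestronglyMeasurable]
    refine ⟨Eventually.of_forall fun l => (pois_eq (wne l)).1, ?_⟩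
    have e1 : ∀ l : ℝ, ∫ E : ℝ, ‖Ak (w l) E ^ 2‖ = Real.pi := by
      intro l
      rw [← (pois_eq (wne l)).2]
      refine integral_congr_ae (Eventually.of_forall fun E => ?_)
      simp only
      rw [Real.norm_of_nonneg (sq_nonneg _)]
    simp only [e1]
    exact integrable_const _
  have IG : ∫ p : ℝ × ℝ, Ak (w p.2) p.1 ^ 2 ∂(volume.prod m) = Real.pi * ‖x‖ ^ 2 := by
    rw [integral_prod_symm _ iG]
    have e1 : ∀ l : ℝ, ∫ E : ℝ, Ak (w l) E ^ 2 = Real.pi := fun l => (pois_eq (wne l)).2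
    simp only [e1]
    rw [integral_const, smul_eq_mul, measureReal_def, hmass,
      ENNReal.toReal_ofReal (sq_nonneg _), mul_comm]
  have hle : ∀ p : ℝ × ℝ, (‖(p.2 : ℂ) - z p.1‖ ^ 2)⁻¹ ≤ (c * ε)⁻¹ * Ak (w p.2) p.1 ^ 2 := by
    intro p
    rw [hAk]
    have h1 := hb p.2 p.1
    have h2 : 0 < (h p.2 - p.1) ^ 2 + ε ^ 2 := by positivity
    calc (‖(p.2 : ℂ) - z p.1‖ ^ 2)⁻¹ ≤ (c * ((h p.2 - p.1) ^ 2 + ε ^ 2))⁻¹ :=
          inv_anti₀ (by positivity) h1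
      _ = _ := by field_simp
  have ctsF : Continuous fun p : ℝ × ℝ => (‖(p.2 : ℂ) - z p.1‖ ^ 2)⁻¹ := by
    refine Continuous.inv₀ (by fun_prop) fun p => ?_
    have h1 := hb p.2 p.1
    have h2 : 0 < c * ((h p.2 - p.1) ^ 2 + ε ^ 2) := by positivity
    exact (h2.trans_le h1).ne'
  have iF : Integrable (fun p : ℝ × ℝ => (‖(p.2 : ℂ) - z p.1‖ ^ 2)⁻¹) (volume.prod m) := by
    refine (iG.const_mul (c * ε)⁻¹).mono' ctsF.aestronglyMeasurable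
      (Eventually.of_forall fun p => ?_)
    rw [Real.norm_of_nonneg (by positivity)]
    exact hle p
  have e2 : (fun E => ‖Rz S (z E) x‖ ^ 2) = fun E => ∫ l : ℝ, (‖(l : ℂ) - z E‖ ^ 2)⁻¹ ∂m :=
    funext fun E => rz_sq hS hm (hz0 E)
  rw [e2]
  refine ⟨iF.integral_prod_left, ?_⟩
  rw [← integral_prod _ iF]
  have h3 : ∫ p : ℝ × ℝ, (‖(p.2 : ℂ) - z p.1‖ ^ 2)⁻¹ ∂(volume.prod m) ≤
      (c * ε)⁻¹ * (Real.pi * ‖x‖ ^ 2) := by
    rw [← IG, ← integral_const_mul]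
    exact integral_mono iF (iG.const_mul _) hle
  calc _ ≤ ε * ((c * ε)⁻¹ * (Real.pi * ‖x‖ ^ 2)) := mul_le_mul_of_nonneg_left h3 hε.le
    _ = _ := by field_simp

end sq

section la

variable {ι : Type} {W : UG (L2 ι)} {S : L2 ι →L[ℂ] L2 ι}

lemma La_eq (hS : IsSelfAdjoint S) (hG : Gen W S) (x : L2 ι) (E : ℝ) (j : ℕ) :
    La W x E (ep j) = -(Complex.I • Rz S (zk E j) x) := by
  have h1 := rz_La hS hG (ep_pos j) E x
  unfold zk
  rw [h1, smul_smul, Complex.I_mul_I, neg_one_smul, neg_neg]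

lemma La_eq' (hS : IsSelfAdjoint S) (hG : Gen W S) (x : L2 ι) (E : ℝ) (j : ℕ) :
    La (rev W) x (-E) (ep j) = Complex.I • Rz S (conj (zk E j)) x := by
  have h1 := rz_La' hS hG (ep_pos j) E x
  unfold zk
  rw [h1, smul_neg, smul_smul, Complex.I_mul_I, neg_one_smul, neg_neg]

lemma zk_sub (l E : ℝ) (j : ℕ) : ‖(l : ℂ) - zk E j‖ ^ 2 = (l - E) ^ 2 + ep j ^ 2 := by
  rw [← Complex.normSq_eq_norm_sq, Complex.normSq_apply]
  unfold zk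
  simp
  ring

lemma la_l2 (hS : IsSelfAdjoint S) (hG : Gen W S) (x : L2 ι) (j : ℕ) :
    Integrable (fun E => ‖La W x E (ep j)‖ ^ 2) ∧
      ep j * ∫ E, ‖La W x E (ep j)‖ ^ 2 ≤ Real.pi * ‖x‖ ^ 2 := by
  have h1 : (fun E => ‖La W x E (ep j)‖ ^ 2) = fun E => ‖Rz S (zk E j) x‖ ^ 2 := by
    funext E
    rw [La_eq hS hG, norm_neg, norm_smul, Complex.norm_I, one_mul]
  rw [h1]
  have h2 := rz_l2 hS x (zk_cont j) (fun E => zk_ne E j) (h := fun l => l) continuous_id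
    one_pos (ep_pos j) (fun l E => by rw [zk_sub, one_mul])
  rwa [div_one] at h2

lemma la_l2' (hS : IsSelfAdjoint S) (hG : Gen W S) (x : L2 ι) (j : ℕ) :
    Integrable (fun E => ‖La (rev W) x (-E) (ep j)‖ ^ 2) ∧
      ep j * ∫ E, ‖La (rev W) x (-E) (ep j)‖ ^ 2 ≤ Real.pi * ‖x‖ ^ 2 := by
  have h1 := la_l2 hS.neg hG.rev x j
  refine ⟨h1.1.comp_neg, ?_⟩
  rw [integral_neg_eq_self (fun E => ‖La (rev W) x E (ep j)‖ ^ 2)]
  exact h1.2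

variable {h f g : ℝ → ℝ}

lemma zc_sub (c : Cur h f g) {m : ℝ} (hm0 : 0 < m) (hm : ∀ E, m ≤ |g E|) (l E : ℝ) (j : ℕ) :
    m ^ 2 * ((h l - E) ^ 2 + ep j ^ 2) ≤ ‖(l : ℂ) - zc f g E j‖ ^ 2 := by
  have h1 := c.low hm (h l) E
  rw [c.hf] at h1
  have h2 : ‖(l : ℂ) - zc f g E j‖ ^ 2 = (l - f E) ^ 2 + (g E * ep j) ^ 2 := by
    rw [← Complex.normSq_eq_norm_sq, Complex.normSq_apply]
    unfold zc
    simp
    ring
  rw [h2]
  have h3 : m ^ 2 * (h l - E) ^ 2 ≤ (l - f E) ^ 2 := by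
    rw [← sq_abs (h l - E), ← sq_abs (l - f E), ← mul_pow]
    exact pow_le_pow_left₀ (by positivity) h1 2
  have h4 : m ^ 2 * ep j ^ 2 ≤ (g E * ep j) ^ 2 := by
    rw [mul_pow, ← sq_abs (g E)]
    exact mul_le_mul_of_nonneg_right (pow_le_pow_left₀ hm0.le (hm E) 2) (sq_nonneg _)
  nlinarith

lemma zc_sub' (c : Cur h f g) {m : ℝ} (hm0 : 0 < m) (hm : ∀ E, m ≤ |g E|) (l E : ℝ) (j : ℕ) :
    m ^ 2 * ((h l - E) ^ 2 + ep j ^ 2) ≤ ‖(l : ℂ) - conj (zc f g E j)‖ ^ 2 := by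
  have h1 := zc_sub c hm0 hm l E j
  have h2 : (l : ℂ) - conj (zc f g E j) = conj ((l : ℂ) - zc f g E j) := by
    rw [map_sub, Complex.conj_ofReal]
  rwa [h2, RCLike.norm_conj]

lemma g_l2 (c : Cur h f g) {M : ℝ} (hM : ∀ E, |g E| ≤ M) {z : ℝ → L2 ι} (hz : Continuous z)
    (hi : Integrable fun E => ‖z E‖ ^ 2) {a : ℂ} (ha : ‖a‖ = 1) :
    Integrable (fun E => ‖(a * g E) • z E‖ ^ 2) ∧
      ∫ E, ‖(a * g E) • z E‖ ^ 2 ≤ M ^ 2 * ∫ E, ‖z E‖ ^ 2 := by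
  have hle : ∀ E, ‖(a * g E) • z E‖ ^ 2 ≤ M ^ 2 * ‖z E‖ ^ 2 := by
    intro E
    rw [norm_smul, norm_mul, ha, one_mul, Complex.norm_real, Real.norm_eq_abs, mul_pow]
    exact mul_le_mul_of_nonneg_right (pow_le_pow_left₀ (abs_nonneg _) (hM E) 2) (sq_nonneg _)
  have hg := c.cont
  have i1 : Integrable (fun E => ‖(a * g E) • z E‖ ^ 2) := by
    refine (hi.const_mul (M ^ 2)).mono' ?_ (Eventually.of_forall fun E => ?_)
    · exact (by fun_prop : Continuous fun E => ‖(a * g E) • z E‖ ^ 2).aestronglyMeasurable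
    · rw [Real.norm_of_nonneg (sq_nonneg _)]
      exact hle E
  refine ⟨i1, ?_⟩
  rw [← integral_const_mul]
  exact integral_mono i1 (hi.const_mul _) hle

/-- Cauchy-Schwarz: the bound -/
lemma cs_le {φ : ℝ → ℂ} {K : ℝ} (hφ : ∀ E, ‖φ E‖ ≤ K) {v : L2 ι →L[ℂ] L2 ι} {a b : ℝ → L2 ι}
    (ia : Integrable fun E => ‖a E‖ ^ 2) (ib : Integrable fun E => ‖b E‖ ^ 2) {ε τ : ℝ}
    (hε : 0 ≤ ε) (hτ : 0 < τ) :
    ‖∫ E, φ E * ((ε : ℂ) * ⟪a E, v (b E)⟫_ℂ)‖ ≤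
      K * ‖v‖ * ((ε * ∫ E, ‖a E‖ ^ 2) / τ + τ * (ε * ∫ E, ‖b E‖ ^ 2)) := by
  have hK : 0 ≤ K := (norm_nonneg _).trans (hφ 0)
  have e1 : K * ‖v‖ * ((ε * ∫ E, ‖a E‖ ^ 2) / τ + τ * (ε * ∫ E, ‖b E‖ ^ 2)) =
      ∫ E, K * ‖v‖ * ((ε / τ) * ‖a E‖ ^ 2 + (τ * ε) * ‖b E‖ ^ 2) := by
    rw [integral_const_mul, integral_add (ia.const_mul _) (ib.const_mul _), integral_const_mul,
      integral_const_mul]
    ring
  rw [e1]
  refine norm_integral_le_of_norm_le (((ia.const_mul _).add (ib.const_mul _)).const_mul _)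
    (Eventually.of_forall fun E => ?_)
  rw [norm_mul, norm_mul, Complex.norm_real, Real.norm_of_nonneg hε]
  have h1 : ‖⟪a E, v (b E)⟫_ℂ‖ ≤ ‖a E‖ * (‖v‖ * ‖b E‖) :=
    (norm_inner_le_norm _ _).trans (mul_le_mul_of_nonneg_left (v.le_opNorm _) (norm_nonneg _))
  have h2 : ‖a E‖ * ‖b E‖ ≤ ‖a E‖ ^ 2 / τ + τ * ‖b E‖ ^ 2 := by
    have h3 : 0 ≤ (‖a E‖ - τ * ‖b E‖) ^ 2 := sq_nonneg _
    have h4 : 0 ≤ ‖a E‖ * ‖b E‖ := by positivity
    rw [div_add' _ _ _ hτ.ne', le_div_iff₀ hτ]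
    nlinarith
  calc ‖φ E‖ * (ε * ‖⟪a E, v (b E)⟫_ℂ‖) ≤ K * (ε * (‖a E‖ * (‖v‖ * ‖b E‖))) := by
        gcongr
        exact hφ E
    _ = K * ‖v‖ * ε * (‖a E‖ * ‖b E‖) := by ring
    _ ≤ K * ‖v‖ * ε * (‖a E‖ ^ 2 / τ + τ * ‖b E‖ ^ 2) := by gcongr
    _ = _ := by ring

/-- Cauchy-Schwarz: the limit -/
lemma cs_lim {φ : ℝ → ℂ} {K : ℝ} (hφ : ∀ E, ‖φ E‖ ≤ K) {v : L2 ι →L[ℂ] L2 ι}
    {a b : ℕ → ℝ → L2 ι} (ia : ∀ k, Integrable fun E => ‖a k E‖ ^ 2)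
    (ib : ∀ k, Integrable fun E => ‖b k E‖ ^ 2) {ek : ℕ → ℝ} (hε : ∀ k, 0 ≤ ek k)
    (la : Tendsto (fun k => ek k * ∫ E, ‖a k E‖ ^ 2) atTop (𝓝 0)) {C : ℝ}
    (lb : ∀ k, ek k * ∫ E, ‖b k E‖ ^ 2 ≤ C) :
    Tendsto (fun k => ∫ E, φ E * ((ek k : ℂ) * ⟪a k E, v (b k E)⟫_ℂ)) atTop (𝓝 0) := by
  have hK : 0 ≤ K := (norm_nonneg _).trans (hφ 0)
  have hC : 0 ≤ C := by
    refine le_trans ?_ (lb 0)
    exact mul_nonneg (hε 0) (integral_nonneg fun _ => sq_nonneg _)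
  rw [Metric.tendsto_atTop]
  intro η hη
  obtain ⟨D, hD⟩ : ∃ D : ℝ, D = K * ‖v‖ := ⟨_, rfl⟩
  have hD0 : 0 ≤ D := by rw [hD]; positivity
  obtain ⟨τ, hτ, hτ2⟩ : ∃ τ : ℝ, 0 < τ ∧ D * (τ * C) ≤ η / 3 := by
    refine ⟨η / 3 / (D * C + 1), by positivity, ?_⟩
    have h1 : D * (η / 3 / (D * C + 1) * C) = (D * C) / (D * C + 1) * (η / 3) := by
      field_simp
    rw [h1]
    have h2 : (D * C) / (D * C + 1) ≤ 1 := by
      rw [div_le_one (by positivity)]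
      linarith
    nlinarith
  have h3 : Tendsto (fun k => D * ((ek k * ∫ E, ‖a k E‖ ^ 2) / τ)) atTop (𝓝 0) := by
    have := (la.div_const τ).const_mul D
    rwa [zero_div, mul_zero] at this
  obtain ⟨N, hN⟩ := eventually_atTop.1 (h3.eventually_lt_const (u := η / 3) (by positivity))
  refine ⟨N, fun k hk => ?_⟩
  rw [dist_zero_right]
  have h4 := cs_le hφ (v := v) (ia k) (ib k) (hε k) hτ
  have h5 := hN k hk
  have h6 : D * (τ * (ek k * ∫ E, ‖b k E‖ ^ 2)) ≤ D * (τ * C) := by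
    gcongr
    exact lb k
  rw [← hD] at h4
  calc _ ≤ D * ((ek k * ∫ E, ‖a k E‖ ^ 2) / τ + τ * (ek k * ∫ E, ‖b k E‖ ^ 2)) := h4
    _ = D * ((ek k * ∫ E, ‖a k E‖ ^ 2) / τ) + D * (τ * (ek k * ∫ E, ‖b k E‖ ^ 2)) := by ring
    _ < η := by linarith

end la

end Pool.Agent.Helper26.Cc
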