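import Pool.Agent.Helper26.Cc.Fid

/-! # The fibre over one site: the limits -/

set_option autoImplicit false

open MeasureTheory Filter Topology
open scoped ENNReal NNReal ComplexConjugate InnerProductSpace

namespace Pool.Agent.Helper26.Cc

open Pool.Agent.H5R2.NB Pool.Agent.Helper26.Nb Pool.Agent.Helper26.Cm Pool.Agent.Helper26.Dj
  Pool.Agent.Helper26.Rg
open Pool.Agent.Helper26.Rg.Fib (Lm m_c m_int)
open Pool.Agent.TH369.AN (Rz rz_uniq rz_eq rz_norm pt pt_sa fc)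
open Pool.Agent.TH369.MU (zk ep SpM spm_exists)

lemma ep_lim {N : ℕ → ℕ} (hN : Tendsto N atTop atTop) : Tendsto (fun k => ep (N k)) atTop (𝓝 0) := by
  have : Tendsto ep atTop (𝓝 0) := by
    unfold ep
    exact tendsto_one_div_add_atTop_nhds_zero_nat (𝕜 := ℝ)
  exact this.comp hN

section cs

variable {ι : Type}

lemma cs_int {φ : ℝ → ℂ} (hφm : AEStronglyMeasurable φ) {K : ℝ} (hφ : ∀ E, ‖φ E‖ ≤ K)
    {v : L2 ι →L[ℂ] L2 ι} {a b : ℝ → L2 ι} (ca : Continuous a) (cb : Continuous b)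
    (ia : Integrable fun E => ‖a E‖ ^ 2) (ib : Integrable fun E => ‖b E‖ ^ 2) (ε : ℝ) :
    Integrable fun E => φ E * ((ε : ℂ) * ⟪a E, v (b E)⟫_ℂ) := by
  have hK : 0 ≤ K := (norm_nonneg _).trans (hφ 0)
  refine ((ia.add ib).const_mul (K * (|ε| * ‖v‖))).mono' ?_ (Eventually.of_forall fun E => ?_)
  · refine hφm.mul ?_
    exact (continuous_const.mul (ca.inner (v.continuous.comp cb))).aestronglyMeasurable
  · rw [norm_mul, norm_mul, Complex.norm_real, Real.norm_eq_abs]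
    have h1 : ‖⟪a E, v (b E)⟫_ℂ‖ ≤ ‖a E‖ * (‖v‖ * ‖b E‖) :=
      (norm_inner_le_norm _ _).trans (mul_le_mul_of_nonneg_left (v.le_opNorm _) (norm_nonneg _))
    have h2 : ‖a E‖ * ‖b E‖ ≤ ‖a E‖ ^ 2 + ‖b E‖ ^ 2 := by
      nlinarith [sq_nonneg (‖a E‖ - ‖b E‖), sq_nonneg ‖a E‖, sq_nonneg ‖b E‖]
    calc ‖φ E‖ * (|ε| * ‖⟪a E, v (b E)⟫_ℂ‖) ≤ K * (|ε| * (‖a E‖ * (‖v‖ * ‖b E‖))) := by
          gcongr
          exact hφ E
      _ = K * (|ε| * ‖v‖) * (‖a E‖ * ‖b E‖) := by ring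
      _ ≤ K * (|ε| * ‖v‖) * (‖a E‖ ^ 2 + ‖b E‖ ^ 2) := by gcongr

variable {W : UG (L2 ι)} {S : L2 ι →L[ℂ] L2 ι} {h f g : ℝ → ℝ}

lemma cLa (hS : IsSelfAdjoint S) (hG : Gen W S) (x : L2 ι) (j : ℕ) :
    Continuous fun E => La W x E (ep j) := by
  simp only [fun E => La_eq hS hG x E j]
  exact ((cont_rz hS (zk_cont j) (fun E => zk_ne E j) x).const_smul (Complex.I : ℂ)).neg

lemma cLa' (hS : IsSelfAdjoint S) (hG : Gen W S) (x : L2 ι) (j : ℕ) :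
    Continuous fun E => La (rev W) x (-E) (ep j) := by
  simp only [fun E => La_eq' hS hG x E j]
  exact (cont_rz hS (Complex.continuous_conj.comp (zk_cont j)) (fun E => czk_ne E j)
    x).const_smul (Complex.I : ℂ)

lemma cX (c : Cur h f g) (hS : IsSelfAdjoint S) (x : L2 ι) (j : ℕ) :
    Continuous fun E => (Complex.I * g E) • Rz S (zc f g E j) x := by
  have h1 := cont_rz hS (c.zcont j) (fun E => c.zne E j) x
  have h2 := c.cont
  exact (by fun_prop : Continuous fun E => Complex.I * (g E : ℂ)).smul h1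

lemma cX' (c : Cur h f g) (hS : IsSelfAdjoint S) (x : L2 ι) (j : ℕ) :
    Continuous fun E => (Complex.I * g E) • Rz S (conj (zc f g E j)) x := by
  have h1 := cont_rz hS (Complex.continuous_conj.comp (c.zcont j)) (fun E => c.czne E j) x
  have h2 := c.cont
  exact (by fun_prop : Continuous fun E => Complex.I * (g E : ℂ)).smul h1

lemma x_l2 (c : Cur h f g) (hS : IsSelfAdjoint S) (x : L2 ι) {m M : ℝ} (hm0 : 0 < m)
    (hb : ∀ E, m ≤ |g E| ∧ |g E| ≤ M) (j : ℕ) :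
    Integrable (fun E => ‖(Complex.I * g E) • Rz S (zc f g E j) x‖ ^ 2) ∧
      ep j * ∫ E, ‖(Complex.I * g E) • Rz S (zc f g E j) x‖ ^ 2 ≤
        M ^ 2 * (Real.pi * ‖x‖ ^ 2 / m ^ 2) := by
  have h1 := rz_l2 hS x (c.zcont j) (fun E => c.zne E j) c.hcont (by positivity : 0 < m ^ 2)
    (ep_pos j) (fun l E => zc_sub c hm0 (fun E => (hb E).1) l E j)
  have h2 := g_l2 c (fun E => (hb E).2) (cont_rz hS (c.zcont j) (fun E => c.zne E j) x) h1.1
    (a := Complex.I) Complex.norm_I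
  refine ⟨h2.1, ?_⟩
  calc _ ≤ ep j * (M ^ 2 * ∫ E, ‖Rz S (zc f g E j) x‖ ^ 2) :=
        mul_le_mul_of_nonneg_left h2.2 (ep_pos j).le
    _ = M ^ 2 * (ep j * ∫ E, ‖Rz S (zc f g E j) x‖ ^ 2) := by ring
    _ ≤ _ := mul_le_mul_of_nonneg_left h1.2 (sq_nonneg _)

lemma x_l2' (c : Cur h f g) (hS : IsSelfAdjoint S) (x : L2 ι) {m M : ℝ} (hm0 : 0 < m)
    (hb : ∀ E, m ≤ |g E| ∧ |g E| ≤ M) (j : ℕ) :
    Integrable (fun E => ‖(Complex.I * g E) • Rz S (conj (zc f g E j)) x‖ ^ 2) ∧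
      ep j * ∫ E, ‖(Complex.I * g E) • Rz S (conj (zc f g E j)) x‖ ^ 2 ≤
        M ^ 2 * (Real.pi * ‖x‖ ^ 2 / m ^ 2) := by
  have cz : Continuous fun E => conj (zc f g E j) := Complex.continuous_conj.comp (c.zcont j)
  have h1 := rz_l2 hS x cz (fun E => c.czne E j) c.hcont (by positivity : 0 < m ^ 2)
    (ep_pos j) (fun l E => zc_sub' c hm0 (fun E => (hb E).1) l E j)
  have h2 := g_l2 c (fun E => (hb E).2) (cont_rz hS cz (fun E => c.czne E j) x) h1.1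
    (a := Complex.I) Complex.norm_I
  refine ⟨h2.1, ?_⟩
  calc _ ≤ ep j * (M ^ 2 * ∫ E, ‖Rz S (conj (zc f g E j)) x‖ ^ 2) :=
        mul_le_mul_of_nonneg_left h2.2 (ep_pos j).le
    _ = M ^ 2 * (ep j * ∫ E, ‖Rz S (conj (zc f g E j)) x‖ ^ 2) := by ring
    _ ≤ _ := mul_le_mul_of_nonneg_left h1.2 (sq_nonneg _)

end cs

namespace Fic

variable {ι : Type} {T : L2 ι →L[ℂ] L2 ι} {e : L2 ι} {h f g : ℝ → ℝ} {U U' : ℝ → UG (L2 ι)}

/-- uniform bound of the forward energy integrals -/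
lemma f_le (F : Fic T e h f g U U') (v : L2 ι →L[ℂ] L2 ι) {m M : ℝ} (hm0 : 0 < m)
    (hb : ∀ E, m ≤ |g E| ∧ |g E| ≤ M) {φ : ℝ → ℂ} {K : ℝ} (hφ : ∀ E, ‖φ E‖ ≤ K) (j : ℕ) (κ : ℝ) :
    ‖∫ E, φ E * (nc T e g v j E (zc f g E j) (zk E j) *
      ((conj (wf T e (zc f g E j)) - κ) * (wf T e (zk E j) - κ))⁻¹)‖ ≤
      K * ‖v‖ * (M ^ 2 * (Real.pi / m ^ 2) + Real.pi) := by
  have hK : 0 ≤ K := (norm_nonneg _).trans (hφ 0)
  have hS := pt_sa T F.sa e κ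
  have h1 := x_l2 F.cur hS e hm0 hb j
  have h2 := la_l2 hS (F.gen κ) e j
  rw [F.he, one_pow, mul_one] at h1 h2
  simp only [ker_f F]
  have h3 := cs_le hφ (v := v) (a := fun E => -((Complex.I * g E) • Rz (pt T e κ) (zc f g E j) e))
    (b := fun E => La (U κ) e E (ep j)) (by simpa only [norm_neg] using h1.1) h2.1
    (ep_pos j).le one_pos
  simp only [norm_neg, div_one, one_mul] at h3
  refine h3.trans (mul_le_mul_of_nonneg_left (add_le_add h1.2 h2.2) (by positivity))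

lemma b_le (F : Fic T e h f g U U') (v : L2 ι →L[ℂ] L2 ι) {m M : ℝ} (hm0 : 0 < m)
    (hb : ∀ E, m ≤ |g E| ∧ |g E| ≤ M) {φ : ℝ → ℂ} {K : ℝ} (hφ : ∀ E, ‖φ E‖ ≤ K) (j : ℕ) (κ : ℝ) :
    ‖∫ E, φ E * (nc T e g v j E (conj (zc f g E j)) (conj (zk E j)) *
      ((wf T e (zc f g E j) - κ) * (conj (wf T e (zk E j)) - κ))⁻¹)‖ ≤
      K * ‖v‖ * (M ^ 2 * (Real.pi / m ^ 2) + Real.pi) := by
  have hK : 0 ≤ K := (norm_nonneg _).trans (hφ 0)
  have hS := pt_sa T F.sa e κ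
  have h1 := x_l2' F.cur hS e hm0 hb j
  have h2 := la_l2' hS (F.gen κ) e j
  rw [F.he, one_pow, mul_one] at h1 h2
  simp only [ker_b F]
  have h3 := cs_le hφ (v := v) (a := fun E => (Complex.I * g E) • Rz (pt T e κ)
    (conj (zc f g E j)) e) (b := fun E => La (rev (U κ)) e (-E) (ep j)) h1.1 h2.1
    (ep_pos j).le one_pos
  simp only [div_one, one_mul] at h3
  refine h3.trans (mul_le_mul_of_nonneg_left (add_le_add h1.2 h2.2) (by positivity))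

theorem fwd (F : Fic T e h f g U U') (str : S_Str) (v : L2 ι →L[ℂ] L2 ι) {φ : ℝ → ℂ}
    (hφ : NiceB φ) {N : ℕ → ℕ} (hN : Tendsto N atTop atTop) (κ : ℝ) {B : L2 ι →L[ℂ] L2 ι}
    (hB : AGood (U' κ) (U κ) v (fun k => ep (N k)) B) :
    Tendsto (fun k => ∫ E : ℝ, φ E * (nc T e g v (N k) E (zc f g E (N k)) (zk E (N k)) *
      ((conj (wf T e (zc f g E (N k))) - κ) * (wf T e (zk E (N k)) - κ))⁻¹)) atTop
      (𝓝 (Lm φ (U κ) B e)) := by
  obtain ⟨hn, K, hK⟩ := hφ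
  obtain ⟨m, M, hm0, hb⟩ := F.cur.bd
  have hS := pt_sa T F.sa e κ
  have hS' := fc_sa h (pt T e κ)
  have h1 := en_lim (x := e) (y := e) hn.i hn.p hn.m (fun k => ep_pos (N k)) (ep_lim hN)
    (fun x => (hB x).1)
  have h2 := h1.const_mul (1 / 2 : ℂ)
  obtain ⟨s1, s2, s3, s4⟩ := str ι (pt T e κ) hS h f g F.cur (U' κ) (F.gen' κ) e
  have h3 := cs_lim hK (v := v) (a := fun k E => La (U' κ) e E (ep (N k)) +
    (Complex.I * g E) • Rz (pt T e κ) (zc f g E (N k)) e) (b := fun k E => La (U κ) e E (ep (N k)))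
    (fun k => s1 (N k)) (fun k => (la_l2 hS (F.gen κ) e (N k)).1) (fun k => (ep_pos (N k)).le)
    (s3.comp hN) (fun k => (la_l2 hS (F.gen κ) e (N k)).2)
  have h4 := h2.sub h3
  rw [sub_zero] at h4
  refine h4.congr fun k => ?_
  simp only [ker_f F]
  rw [← mul_assoc]
  have i1 := cs_int hn.i.aestronglyMeasurable hK (v := v) (cLa hS' (F.gen' κ) e (N k))
    (cLa hS (F.gen κ) e (N k)) (la_l2 hS' (F.gen' κ) e (N k)).1
    (la_l2 hS (F.gen κ) e (N k)).1 (ep (N k))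
  have i2 := cs_int hn.i.aestronglyMeasurable hK (v := v)
    ((cLa hS' (F.gen' κ) e (N k)).add (cX F.cur hS e (N k)))
    (cLa hS (F.gen κ) e (N k)) (s1 (N k)) (la_l2 hS (F.gen κ) e (N k)).1 (ep (N k))
  simp only [Pi.add_apply] at i2
  have e1 : (1 / 2 * (2 * (ep (N k) : ℂ))) * ∫ E : ℝ, φ E * ⟪La (U' κ) e E (ep (N k)),
      v (La (U κ) e E (ep (N k)))⟫_ℂ = ∫ E : ℝ, φ E * ((ep (N k) : ℂ) *
        ⟪La (U' κ) e E (ep (N k)), v (La (U κ) e E (ep (N k)))⟫_ℂ) := by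
    rw [← integral_const_mul]
    refine integral_congr_ae (Eventually.of_forall fun E => ?_)
    simp only
    ring
  rw [e1, ← integral_sub i1 i2]
  refine integral_congr_ae (Eventually.of_forall fun E => ?_)
  simp only
  rw [inner_add_left, inner_neg_left]
  ring

theorem bwd (F : Fic T e h f g U U') (str : S_Str) (v : L2 ι →L[ℂ] L2 ι) {φ : ℝ → ℂ}
    (hφ : NiceB φ) {N : ℕ → ℕ} (hN : Tendsto N atTop atTop) (κ : ℝ) {B : L2 ι →L[ℂ] L2 ι}
    (hB : AGood (U' κ) (U κ) v (fun k => ep (N k)) B) :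
    Tendsto (fun k => ∫ E : ℝ, φ E * (nc T e g v (N k) E (conj (zc f g E (N k)))
      (conj (zk E (N k))) *
      ((wf T e (zc f g E (N k)) - κ) * (conj (wf T e (zk E (N k))) - κ))⁻¹)) atTop
      (𝓝 (Lm φ (U κ) B e)) := by
  obtain ⟨hn, K, hK⟩ := hφ
  obtain ⟨m, M, hm0, hb⟩ := F.cur.bd
  have hS := pt_sa T F.sa e κ
  have hS' := fc_sa h (pt T e κ)
  obtain ⟨hn', hph⟩ := hn.refl
  have h1 := en_lim (x := e) (y := e) hn'.i hn'.p hn'.m (fun k => ep_pos (N k)) (ep_lim hN)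
    (fun x => (hB x).2)
  have h2 := h1.const_mul (1 / 2 : ℂ)
  have e3 : (1 / 2 : ℂ) * ∫ t : ℝ, ph (fun E => φ (-E)) t * ⟪e, B ((rev (U κ)).U t e)⟫_ℂ =
      Lm φ (U κ) B e := by
    unfold Lm
    congr 1
    rw [← integral_neg_eq_self (fun t => ph φ t * ⟪e, B ((U κ).U t e)⟫_ℂ)]
    refine integral_congr_ae (Eventually.of_forall fun t => ?_)
    simp only
    rw [hph]
    rfl
  rw [e3] at h2
  obtain ⟨s1, s2, s3, s4⟩ := str ι (pt T e κ) hS h f g F.cur (U' κ) (F.gen' κ) e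
  have h3 := cs_lim hK (v := v) (a := fun k E => La (rev (U' κ)) e (-E) (ep (N k)) -
    (Complex.I * g E) • Rz (pt T e κ) (conj (zc f g E (N k))) e)
    (b := fun k E => La (rev (U κ)) e (-E) (ep (N k)))
    (fun k => s2 (N k)) (fun k => (la_l2' hS (F.gen κ) e (N k)).1) (fun k => (ep_pos (N k)).le)
    (s4.comp hN) (fun k => (la_l2' hS (F.gen κ) e (N k)).2)
  have h4 := h2.sub h3
  rw [sub_zero] at h4
  refine h4.congr fun k => ?_
  simp only [ker_b F]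
  rw [← mul_assoc]
  have i1 := cs_int hn.i.aestronglyMeasurable hK (v := v) (cLa' hS' (F.gen' κ) e (N k))
    (cLa' hS (F.gen κ) e (N k)) (la_l2' hS' (F.gen' κ) e (N k)).1
    (la_l2' hS (F.gen κ) e (N k)).1 (ep (N k))
  have i2 := cs_int hn.i.aestronglyMeasurable hK (v := v)
    ((cLa' hS' (F.gen' κ) e (N k)).sub (cX' F.cur hS e (N k)))
    (cLa' hS (F.gen κ) e (N k)) (s2 (N k)) (la_l2' hS (F.gen κ) e (N k)).1 (ep (N k))
  simp only [Pi.sub_apply] at i2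
  have e1 : (1 / 2 * (2 * (ep (N k) : ℂ))) * ∫ E : ℝ, φ (-E) * ⟪La (rev (U' κ)) e E (ep (N k)),
      v (La (rev (U κ)) e E (ep (N k)))⟫_ℂ = ∫ E : ℝ, φ E * ((ep (N k) : ℂ) *
        ⟪La (rev (U' κ)) e (-E) (ep (N k)), v (La (rev (U κ)) e (-E) (ep (N k)))⟫_ℂ) := by
    rw [← integral_const_mul, ← integral_neg_eq_self]
    refine integral_congr_ae (Eventually.of_forall fun E => ?_)
    simp only [neg_neg]
    ring
  rw [e1, ← integral_sub i1 i2]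
  refine integral_congr_ae (Eventually.of_forall fun E => ?_)
  simp only
  rw [inner_sub_left]
  ring

variable {ρ : Measure ℝ} [IsFiniteMeasure ρ] {b : ℝ → ℂ} {Bb : ℝ}

theorem fwd_K (F : Fic T e h f g U U') (str : S_Str) (v : L2 ι →L[ℂ] L2 ι) {φ : ℝ → ℂ}
    (hφ : NiceB φ) {N : ℕ → ℕ} (hN : Tendsto N atTop atTop) {B : ℝ → L2 ι →L[ℂ] L2 ι}
    (hB : ∀ᵐ κ ∂ρ, AGood (U' κ) (U κ) v (fun k => ep (N k)) (B κ))
    (hb : Measurable b) (hBb : ∀ κ, ‖b κ‖ ≤ Bb) :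
    Tendsto (fun k => ∫ E : ℝ, φ E * (nc T e g v (N k) E (zc f g E (N k)) (zk E (N k)) *
      Kf ρ b (conj (wf T e (zc f g E (N k)))) (wf T e (zk E (N k))))) atTop
      (𝓝 (∫ κ, b κ * Lm φ (U κ) (B κ) e ∂ρ)) := by
  have hb0 : 0 ≤ Bb := (norm_nonneg _).trans (hBb 0)
  obtain ⟨hn, K, hK⟩ := id hφ
  obtain ⟨m, M, hm0, hgb⟩ := F.cur.bd
  have e1 : ∀ k, ∫ E : ℝ, φ E * (nc T e g v (N k) E (zc f g E (N k)) (zk E (N k)) *
      Kf ρ b (conj (wf T e (zc f g E (N k)))) (wf T e (zk E (N k)))) =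
      ∫ κ : ℝ, b κ * (∫ E : ℝ, φ E * (nc T e g v (N k) E (zc f g E (N k)) (zk E (N k)) *
        ((conj (wf T e (zc f g E (N k))) - κ) * (wf T e (zk E (N k)) - κ))⁻¹)) ∂ρ := fun k =>
    fubK (m_n F v (N k)) (m_c (m_w2 F (N k))) (m_w F (N k)) (ker_f_le F v (N k)) hn.i hb hBb
  simp only [e1]
  refine tendsto_integral_of_dominated_convergence
    (fun _ => Bb * (K * ‖v‖ * (M ^ 2 * (Real.pi / m ^ 2) + Real.pi))) (fun k => ?_)
    (integrable_const _) (fun k => Eventually.of_forall fun κ => ?_) ?_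
  · exact hb.aestronglyMeasurable.mul (m_int hn.i (m_n F v (N k)) (m_c (m_w2 F (N k)))
      (m_w F (N k)))
  · rw [norm_mul]
    exact mul_le_mul (hBb κ) (f_le F v hm0 hgb hK (N k) κ) (norm_nonneg _) hb0
  · filter_upwards [hB] with κ hκ
    exact (fwd F str v hφ hN κ hκ).const_mul _

theorem bwd_K (F : Fic T e h f g U U') (str : S_Str) (v : L2 ι →L[ℂ] L2 ι) {φ : ℝ → ℂ}
    (hφ : NiceB φ) {N : ℕ → ℕ} (hN : Tendsto N atTop atTop) {B : ℝ → L2 ι →L[ℂ] L2 ι}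
    (hB : ∀ᵐ κ ∂ρ, AGood (U' κ) (U κ) v (fun k => ep (N k)) (B κ))
    (hb : Measurable b) (hBb : ∀ κ, ‖b κ‖ ≤ Bb) :
    Tendsto (fun k => ∫ E : ℝ, φ E * (nc T e g v (N k) E (conj (zc f g E (N k)))
      (conj (zk E (N k))) *
      Kf ρ b (wf T e (zc f g E (N k))) (conj (wf T e (zk E (N k)))))) atTop
      (𝓝 (∫ κ, b κ * Lm φ (U κ) (B κ) e ∂ρ)) := by
  have hb0 : 0 ≤ Bb := (norm_nonneg _).trans (hBb 0)
  obtain ⟨hn, K, hK⟩ := id hφ
  obtain ⟨m, M, hm0, hgb⟩ := F.cur.bd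
  have e1 : ∀ k, ∫ E : ℝ, φ E * (nc T e g v (N k) E (conj (zc f g E (N k)))
      (conj (zk E (N k))) *
      Kf ρ b (wf T e (zc f g E (N k))) (conj (wf T e (zk E (N k))))) =
      ∫ κ : ℝ, b κ * (∫ E : ℝ, φ E * (nc T e g v (N k) E (conj (zc f g E (N k)))
      (conj (zk E (N k))) *
        ((wf T e (zc f g E (N k)) - κ) * (conj (wf T e (zk E (N k))) - κ))⁻¹)) ∂ρ := fun k =>
    fubK (m_m F v (N k)) (m_w2 F (N k)) (m_c (m_w F (N k))) (ker_b_le F v (N k)) hn.i hb hBb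
  simp only [e1]
  refine tendsto_integral_of_dominated_convergence
    (fun _ => Bb * (K * ‖v‖ * (M ^ 2 * (Real.pi / m ^ 2) + Real.pi))) (fun k => ?_)
    (integrable_const _) (fun k => Eventually.of_forall fun κ => ?_) ?_
  · exact hb.aestronglyMeasurable.mul (m_int hn.i (m_m F v (N k)) (m_w2 F (N k))
      (m_c (m_w F (N k))))
  · rw [norm_mul]
    exact mul_le_mul (hBb κ) (b_le F v hm0 hgb hK (N k) κ) (norm_nonneg _) hb0
  · filter_upwards [hB] with κ hκ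
    exact (bwd F str v hφ hN κ hκ).const_mul _

/-- the separation hypothesis -/
def Sepa (T : L2 ι →L[ℂ] L2 ι) (e : L2 ι) (f g : ℝ → ℝ) (N : ℕ → ℕ) : Prop :=
  ∀ L η : ℝ, 0 < η → ∃ δ : ℝ, 0 < δ ∧ ∀ᶠ k in atTop,
    volume {E : ℝ | E ∈ Set.Icc (-L) L ∧ ‖wf T e (zc f g E (N k)) - wf T e (zk E (N k))‖ < δ} ≤
      ENNReal.ofReal η

variable {C : ℝ≥0} {R : ℝ}

theorem dat (F : Fic T e h f g U U') (str : S_Str) (lim : S_Lim) (v : L2 ι →L[ℂ] L2 ι)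
    {M : ℝ} (hgM : ∀ E, |g E| ≤ M) (hρ : ρ ≤ C • (volume : Measure ℝ))
    (hR : ∀ᵐ κ ∂ρ, |κ| ≤ R) {N : ℕ → ℕ} (hN : Tendsto N atTop atTop)
    (hsep : Sepa T e f g N) {B : ℝ → L2 ι →L[ℂ] L2 ι}
    (hB : ∀ᵐ κ ∂ρ, AGood (U' κ) (U κ) v (fun k => ep (N k)) (B κ)) :
    Dat ρ C R (‖v‖ * Real.sqrt M) (fun k E => wf T e (zk E (N k)))
      (fun k E => wf T e (zc f g E (N k)))
      (fun k E => nc T e g v (N k) E (zc f g E (N k)) (zk E (N k)))
      (fun k E => nc T e g v (N k) E (conj (zc f g E (N k))) (conj (zk E (N k)))) := by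
  have hM : 0 ≤ ‖v‖ * Real.sqrt M := by positivity
  have wne : ∀ k E, (wf T e (zk E (N k))).im ≠ 0 := fun k E => wf_ne F.sa F.e0 (zk_ne E (N k))
  have w2ne : ∀ k E, (wf T e (zc f g E (N k))).im ≠ 0 := fun k E =>
    wf_ne F.sa F.e0 (F.cur.zne E (N k))
  have hn : ∀ k E, ‖nc T e g v (N k) E (zc f g E (N k)) (zk E (N k))‖ ≤ ‖v‖ * Real.sqrt M *
      (Real.sqrt |(wf T e (zk E (N k))).im| * Real.sqrt |(wf T e (zc f g E (N k))).im|) :=
    fun k E => nc_bd F v hgM E (N k) (by rw [zc_im, abs_mul, abs_of_pos (ep_pos _)])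
      (by rw [zk_im]; exact abs_of_pos (ep_pos _)) rfl rfl
  have hm : ∀ k E, ‖nc T e g v (N k) E (conj (zc f g E (N k))) (conj (zk E (N k)))‖ ≤
      ‖v‖ * Real.sqrt M *
      (Real.sqrt |(wf T e (zk E (N k))).im| * Real.sqrt |(wf T e (zc f g E (N k))).im|) :=
    fun k E => nc_bd F v hgM E (N k)
      (by rw [Complex.conj_im, abs_neg, zc_im, abs_mul, abs_of_pos (ep_pos _)])
      (by rw [Complex.conj_im, abs_neg, zk_im]; exact abs_of_pos (ep_pos _))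
      (by rw [wf_conj F.sa (zk_ne E _), Complex.conj_im, abs_neg])
      (by rw [wf_conj F.sa (F.cur.zne E _), Complex.conj_im, abs_neg])
  refine ⟨hρ, hR, fun k => m_w F (N k), fun k => m_w2 F (N k), fun k => m_n F v (N k),
    fun k => m_m F v (N k), wne, w2ne, hn, hm, ?_, ?_, hsep, ?_⟩
  · filter_upwards [wf_lim F.sa F.he] with E hE
    obtain ⟨l, h1, h2⟩ := hE
    refine ⟨l, h1.comp hN, fun hl => ?_⟩
    obtain ⟨W, hW⟩ := h2 hl
    exact ⟨W, hW.comp hN⟩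
  · filter_upwards [lim ι T F.sa e F.he h f g F.cur] with E hE
    obtain ⟨l, h1, h2⟩ := hE
    refine ⟨l, h1.comp hN, fun hl => ?_⟩
    obtain ⟨W, hW⟩ := h2 hl
    exact ⟨W, hW.comp hN⟩
  · intro φ hφ b Bb hb hBb
    have bX : BM fun k E => nc T e g v (N k) E (zc f g E (N k)) (zk E (N k)) *
        Kf ρ b (conj (wf T e (zc f g E (N k)))) (wf T e (zk E (N k))) := by
      refine ⟨fun k => (m_n F v (N k)).mul (Kf_meas hb (m_c (m_w2 F (N k))) (m_w F (N k))),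
        ‖v‖ * Real.sqrt M * (Bb * (C * Real.pi)), fun k E => ?_⟩
      refine nK_le hρ hM hBb (by rw [Complex.conj_im]; exact neg_ne_zero.2 (w2ne k E))
        (wne k E) ((hn k E).trans (le_of_eq ?_))
      rw [Complex.conj_im, abs_neg, mul_comm (Real.sqrt |(wf T e (zk E (N k))).im|)]
    have bY : BM fun k E => nc T e g v (N k) E (conj (zc f g E (N k))) (conj (zk E (N k))) *
        Kf ρ b (wf T e (zc f g E (N k))) (conj (wf T e (zk E (N k)))) := by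
      refine ⟨fun k => (m_m F v (N k)).mul (Kf_meas hb (m_w2 F (N k)) (m_c (m_w F (N k)))),
        ‖v‖ * Real.sqrt M * (Bb * (C * Real.pi)), fun k E => ?_⟩
      refine nK_le hρ hM hBb (w2ne k E)
        (by rw [Complex.conj_im]; exact neg_ne_zero.2 (wne k E))
        ((hm k E).trans (le_of_eq ?_))
      rw [Complex.conj_im, abs_neg, mul_comm (Real.sqrt |(wf T e (zk E (N k))).im|)]
    have key := Zt_of_niceB (bX.sub bY) (fun ψ hψ => ?_) hφ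
    · exact key
    · have h1 := fwd_K F str v hψ hN hB hb hBb
      have h2 := bwd_K F str v hψ hN hB hb hBb
      have h3 := h1.sub h2
      rw [sub_self] at h3
      refine h3.congr fun k => ?_
      have i1 := bX.int hψ.1.i k
      have i2 := bY.int hψ.1.i k
      rw [← integral_sub i1 i2]
      refine integral_congr_ae (Eventually.of_forall fun E => ?_)
      simp only
      ring

lemma Lm_ae (F : Fic T e h f g U U') (str : S_Str) (lim : S_Lim) (v : L2 ι →L[ℂ] L2 ι)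
    (hρ : ρ ≤ C • (volume : Measure ℝ))
    (hR : ∀ᵐ κ ∂ρ, |κ| ≤ R) {N : ℕ → ℕ} (hN : Tendsto N atTop atTop)
    (hsep : Sepa T e f g N) {B : ℝ → L2 ι →L[ℂ] L2 ι}
    (hB : ∀ᵐ κ ∂ρ, AGood (U' κ) (U κ) v (fun k => ep (N k)) (B κ)) {φ : ℝ → ℂ} (hφ : NiceB φ) :
    ∀ᵐ κ : ℝ ∂ρ, Lm φ (U κ) (B κ) e = 0 := by
  obtain ⟨m, M, hm0, hgb⟩ := F.cur.bd
  obtain ⟨hn, K₀, hK₀⟩ := id hφ
  have hM : 0 ≤ ‖v‖ * Real.sqrt M := by positivity
  have hD := dat F str lim v (fun E => (hgb E).2) hρ hR hN hsep hB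
  have hz : ∀ (b : ℝ → ℂ) (Bb : ℝ), Measurable b → (∀ κ, ‖b κ‖ ≤ Bb) →
      ∫ κ, b κ * Lm φ (U κ) (B κ) e ∂ρ = 0 := fun b Bb hb hBb =>
    tendsto_nhds_unique (fwd_K F str v hφ hN hB hb hBb) (hD.thmZ hM hb hBb hn.i)
  set K : ℝ := K₀ * ‖v‖ * (M ^ 2 * (Real.pi / m ^ 2) + Real.pi) with hK
  have hlim : ∀ᵐ κ : ℝ ∂ρ, Tendsto (fun k => ∫ E : ℝ, φ E *
      (nc T e g v (N k) E (zc f g E (N k)) (zk E (N k)) *
      ((conj (wf T e (zc f g E (N k))) - κ) * (wf T e (zk E (N k)) - κ))⁻¹)) atTop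
      (𝓝 (Lm φ (U κ) (B κ) e)) := by
    filter_upwards [hB] with κ hκ using fwd F str v hφ hN κ hκ
  have hm : AEStronglyMeasurable (fun κ => Lm φ (U κ) (B κ) e) ρ :=
    aestronglyMeasurable_of_tendsto_ae atTop (fun k => m_int hn.i (m_n F v (N k))
      (m_c (m_w2 F (N k))) (m_w F (N k))) hlim
  have hbd : ∀ᵐ κ ∂ρ, ‖Lm φ (U κ) (B κ) e‖ ≤ K := by
    filter_upwards [hlim] with κ hκ
    exact le_of_tendsto hκ.norm (Eventually.of_forall fun k => f_le F v hm0 hgb hK₀ (N k) κ)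
  obtain ⟨L', hL'm, hL'⟩ := hm
  set b : ℝ → ℂ := fun κ => if ‖L' κ‖ ≤ K then conj (L' κ) else 0 with hb
  have hbm : Measurable b := by
    refine Measurable.ite ?_ (Complex.continuous_conj.measurable.comp hL'm.measurable)
      measurable_const
    exact measurableSet_le hL'm.measurable.norm measurable_const
  have hK0 : 0 ≤ K := by
    have : 0 ≤ K₀ := (norm_nonneg _).trans (hK₀ 0)
    rw [hK]
    positivity
  have hbB : ∀ κ, ‖b κ‖ ≤ K := by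
    intro κ
    rw [hb]
    simp only
    split_ifs with h
    · rwa [RCLike.norm_conj]
    · rwa [norm_zero]
  have h1 := hz b K hbm hbB
  have h2 : ∀ᵐ κ ∂ρ, b κ * Lm φ (U κ) (B κ) e = ((‖Lm φ (U κ) (B κ) e‖ ^ 2 : ℝ) : ℂ) := by
    filter_upwards [hL', hbd] with κ h3 h4
    have h5 : ‖L' κ‖ ≤ K := by rw [← h3]; exact h4
    rw [hb]
    simp only
    rw [if_pos h5, ← h3, Complex.ofReal_pow, ← Complex.conj_mul']
  rw [integral_congr_ae h2, integral_complex_ofReal] at h1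
  have h3 : ∫ κ, ‖Lm φ (U κ) (B κ) e‖ ^ 2 ∂ρ = 0 := by exact_mod_cast h1
  have hi : Integrable (fun κ => ‖Lm φ (U κ) (B κ) e‖ ^ 2) ρ := by
    have hm2 : AEStronglyMeasurable (fun κ => Lm φ (U κ) (B κ) e) ρ := ⟨L', hL'm, hL'⟩
    refine Integrable.of_bound (C := K ^ 2) (hm2.norm.pow 2) ?_
    filter_upwards [hbd] with κ hκ
    rw [Real.norm_of_nonneg (by positivity)]
    exact pow_le_pow_left₀ (norm_nonneg _) hκ 2
  have h4 := (integral_eq_zero_iff_of_nonneg (fun κ => by positivity) hi).1 h3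
  filter_upwards [h4] with κ hκ
  simpa using hκ

/-- In the fibre the limit has no matrix elements between `e` and its orbit. -/
theorem core (F : Fic T e h f g U U') (str : S_Str) (lim : S_Lim) (v : L2 ι →L[ℂ] L2 ι)
    (hρ : ρ ≤ C • (volume : Measure ℝ))
    (hR : ∀ᵐ κ ∂ρ, |κ| ≤ R) {N : ℕ → ℕ} (hN : Tendsto N atTop atTop)
    (hsep : Sepa T e f g N) {B : ℝ → L2 ι →L[ℂ] L2 ι}
    (hB : ∀ᵐ κ ∂ρ, AGood (U' κ) (U κ) v (fun k => ep (N k)) (B κ)) :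
    ∀ᵐ κ ∂ρ, ∀ t, ⟪e, B κ ((U κ).U t e)⟫_ℂ = 0 := by
  have h1 : ∀ᵐ κ ∂ρ, ∀ (m : ℕ) (q : ℚ), Lm (gq m q) (U κ) (B κ) e = 0 := by
    rw [ae_all_iff]
    intro m
    rw [ae_all_iff]
    intro q
    exact Lm_ae F str lim v hρ hR hN hsep hB (niceB_gq m q)
  filter_upwards [h1] with κ hκ
  refine gq_sep (g := fun t => ⟪e, B κ ((U κ).U t e)⟫_ℂ) (K := ‖B κ‖) ?_ (fun t => ?_) fun m q => ?_
  · exact continuous_const.inner ((B κ).continuous.comp ((U κ).cont' e))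
  · refine (norm_inner_le_norm _ _).trans ?_
    rw [F.he, one_mul]
    refine ((B κ).le_opNorm _).trans ?_
    rw [(U κ).norm', F.he, mul_one]
  · have h2 := hκ m q
    unfold Lm at h2
    exact (mul_eq_zero.1 h2).resolve_left (by norm_num)

end Fic

end Pool.Agent.Helper26.Cc
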