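import Pool.Agent.Helper26.Cc.Fie

/-! # The limit vanishes in the fibre; the lattice -/

set_option autoImplicit false
set_option linter.unusedSectionVars false

open MeasureTheory Filter Topology ProbabilityTheory
open scoped BigOperators ENNReal NNReal ComplexConjugate InnerProductSpace

namespace Pool.Agent.Helper26.Cc

open Pool.Agent.H5R2.NB Pool.Agent.Helper26.Nb Pool.Agent.Helper26.Cm Pool.Agent.Helper26.Dj
  Pool.Agent.Helper26.Rg
open Pool.Agent.TH369.AN (Rz pt pt_sa fc ro)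
open Pool.Agent.TH369.MU (zk ep)

section cyc

variable {ι : Type} {T : L2 ι →L[ℂ] L2 ι} {e : L2 ι} {h f g : ℝ → ℝ} {U U' : ℝ → UG (L2 ι)}

/-- the conclusion of `S_Cyc` -/
def CycG (U U' : ℝ → UG (L2 ι)) (e : L2 ι) : Prop :=
  (∀ κ φ, φ ∈ Kc (U' κ) e ↔ φ ∈ Kc (U 0) e) ∧
    (∀ κ t φ, φ ∈ Kc (U 0) e → (U' κ).U t φ = (U' 0).U t φ)

lemma CycG.comm (H : CycG U U' e) (κ t : ℝ) (y : L2 ι) :
    Pc (U 0) e ((U' κ).U t y) = (U' 0).U t (Pc (U 0) e y) := by
  have hm : Pc (U 0) e y ∈ Kc (U 0) e := Submodule.starProjection_apply_mem _ _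
  have hinv : ∀ (κ s : ℝ) (w : L2 ι), w ∈ Kc (U 0) e → (U' κ).U s w ∈ Kc (U 0) e :=
    fun κ s w hw => (H.1 κ _).1 (Kc_inv _ _ _ ((H.1 κ _).2 hw) s)
  refine Submodule.eq_starProjection_of_mem_of_inner_eq_zero (hinv 0 t _ hm) fun w hw => ?_
  rw [← H.2 κ t _ hm, ← map_sub, adjU]
  exact Submodule.starProjection_inner_eq_zero y _ (hinv κ (-t) w hw)

lemma CycG.good (H : CycG U U' e) {W : UG (L2 ι)} {v : L2 ι →L[ℂ] L2 ι} {Nk : ℕ → ℕ}
    {B : L2 ι →L[ℂ] L2 ι} (κ : ℝ) (h : GGood (U' κ) W v Nk B) :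
    GGood (U' 0) W ((Pc (U 0) e).comp v) Nk ((Pc (U 0) e).comp B) := by
  intro x
  have hP : ∀ N, gP (U' 0) W ((Pc (U 0) e).comp v) N x = Pc (U 0) e (gP (U' κ) W v N x) := by
    intro N
    unfold gP
    rw [map_smul]
    congr 1
    have e' := ContinuousLinearMap.intervalIntegral_comp_comm (Pc (U 0) e)
      ((cont_gP (U' κ) W v x).intervalIntegrable (μ := volume) (0 : ℝ) (N : ℝ))
    refine Eq.trans ?_ e'
    refine intervalIntegral.integral_congr fun s _ => ?_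
    show (U' 0).U (-s) (Pc (U 0) e (v (W.U s x))) = Pc (U 0) e ((U' κ).U (-s) (v (W.U s x)))
    rw [H.comm]
  have hM : ∀ N, gM (U' 0) W ((Pc (U 0) e).comp v) N x = Pc (U 0) e (gM (U' κ) W v N x) := by
    intro N
    unfold gM
    rw [map_smul]
    congr 1
    have e' := ContinuousLinearMap.intervalIntegral_comp_comm (Pc (U 0) e)
      ((cont_gM (U' κ) W v x).intervalIntegrable (μ := volume) (0 : ℝ) (N : ℝ))
    refine Eq.trans ?_ e'
    refine intervalIntegral.integral_congr fun s _ => ?_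
    show (U' 0).U s (Pc (U 0) e (v (W.U (-s) x))) = Pc (U 0) e ((U' κ).U s (v (W.U (-s) x)))
    rw [H.comm]
  constructor
  · simp only [hP]
    exact ((Pc (U 0) e).continuous.tendsto _).comp (h x).1
  · simp only [hM]
    exact ((Pc (U 0) e).continuous.tendsto _).comp (h x).2

/-- In the fibre the limit vanishes at `e`. -/
theorem fibZc [Countable ι] (F : Fic T e h f g U U') (str : S_Str) (lim : S_Lim)
    (H : CycG U U' e) (hU : Fam U e) (ρ : Measure ℝ) [IsProbabilityMeasure ρ]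
    {C : ℝ≥0} (hρ : ρ ≤ C • (volume : Measure ℝ)) {R : ℝ} (hR : ∀ᵐ κ ∂ρ, |κ| ≤ R)
    (v : L2 ι →L[ℂ] L2 ι) {Nk Mk : ℕ → ℕ} (hNk : Tendsto Nk atTop atTop)
    (hMk : Tendsto Mk atTop atTop) (hsep : Fic.Sepa T e f g Mk) {B : ℝ → L2 ι →L[ℂ] L2 ι}
    (hB : ∀ᵐ κ ∂ρ, GGood (U' κ) (U κ) v Nk (B κ) ∧
      AGood (U' κ) (U κ) v (fun k => ep (Mk k)) (B κ)) : ∀ᵐ κ ∂ρ, B κ e = 0 := by
  have h1 := Fic.core F str lim v hρ hR hMk hsep (B := B)
    (by filter_upwards [hB] with κ hκ using hκ.2)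
  have h2 := gzero (U' 0) U e hU ρ C hρ ((Pc (U 0) e).comp v) Nk hNk
    (fun κ => (Pc (U 0) e).comp (B κ)) (by
      filter_upwards [hB] with κ hκ
      exact H.good κ hκ.1)
  filter_upwards [h1, h2, hB] with κ h3 h4 h5
  have h6 : B κ e ∈ Kc (U' κ) e := by
    intro t
    have h7 := h3 (-t)
    rw [inter hNk h5.1] at h7
    rw [← inner_conj_symm, adjU]
    rw [h7, map_zero]
  have h8 : B κ e ∈ Kc (U 0) e := (H.1 κ _).1 h6
  have h9 : Pc (U 0) e (B κ e) = B κ e := Submodule.starProjection_eq_self_iff.2 h8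
  rw [← h9]
  exact h4

/-- the fibre theorem for observables depending on the resampled variable -/
theorem fibHc [Countable ι] (F : Fic T e h f g U U') (str : S_Str) (lim : S_Lim)
    (H : CycG U U' e) (hU : Fam U e) (ρ : Measure ℝ) [IsProbabilityMeasure ρ]
    {C : ℝ≥0} (hρ : ρ ≤ C • (volume : Measure ℝ)) {R : ℝ} (hR : ∀ᵐ κ ∂ρ, |κ| ≤ R)
    {Nk Mk : ℕ → ℕ} (hNk : Tendsto Nk atTop atTop)
    (hMk : Tendsto Mk atTop atTop) (hsep : Fic.Sepa T e f g Mk) (v : ℝ → L2 ι →L[ℂ] L2 ι)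
    (hv : Continuous v) (hfr : ∀ κ κ', FR (v κ - v κ')) {B : ℝ → L2 ι →L[ℂ] L2 ι}
    (hB : ∀ᵐ κ ∂ρ, HGood (U' κ) (U κ) (v κ) Nk (fun k => ep (Mk k)) (B κ)) :
    ∀ᵐ κ ∂ρ, B κ e = 0 := by
  have h1 := kvH U' U e Set.univ ρ C hρ Nk hNk (ek := fun k => ep (Mk k))
    (fun k => ep_pos _) (ep_lim hMk) (fun ν' _ C' hν' hac w B hB => by
      filter_upwards [fibZc F str lim H hU ν' hν' (hac.ae_le hR) w hNk hMk hsep hB] with κ hκ φ _
      rw [hκ, inner_zero_right]) v hv hfr B hB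
  filter_upwards [h1] with κ hκ
  exact inner_self_eq_zero.1 (hκ (B κ e) (Set.mem_univ _))

end cyc

section lat

variable {d : ℕ} {c R : ℝ}

lemma cl_eq {V : Site d → ℝ} (hV : ∀ x, |V x| ≤ R) : cl R V = V := by
  funext x
  have := abs_le.1 (hV x)
  show max (-R) (min R (V x)) = V x
  rw [min_eq_right this.2, max_eq_right this.1]

lemma TV_congr {V V' : Site d → ℝ} (h : V = V') {R R' : ℝ} (hV : ∀ x, |V x| ≤ R)
    (hV' : ∀ x, |V' x| ≤ R') : TV c V R hV = TV c V' R' hV' := by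
  subst h
  ext ψ x
  rw [TV_apply, TV_apply]

lemma TC_eq (hR : 0 ≤ R) {V : Site d → ℝ} (hV : ∀ x, |V x| ≤ R) :
    TC c hR V = TV c V R hV := TV_congr (cl_eq hV) _ _

lemma upd_le {V : Site d → ℝ} (hV : ∀ x, |V x| ≤ R) {κ : ℝ} (hκ : |κ| ≤ R)
    (x : Site d) : |Function.update V 0 κ x| ≤ R := by
  by_cases h : x = 0
  · subst h; rwa [Function.update_self]
  · rw [Function.update_of_ne h]; exact hV x

lemma pt_TC (hR : 0 ≤ R) {V : Site d → ℝ} (hV : ∀ x, |V x| ≤ R) {κ : ℝ} (hκ : |κ| ≤ R) :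
    pt (TC c hR (Function.update V 0 0)) (dl 0) κ = TC c hR (Function.update V 0 κ) := by
  have h0 : ∀ x, |Function.update V 0 0 x| ≤ R := upd_le hV (by simpa using hR)
  rw [TC_eq hR h0, TC_eq hR (upd_le hV hκ)]
  ext ψ x
  rw [pt_TV, TV_apply, zero_add]

lemma TC_sa (hR : 0 ≤ R) (V : Site d → ℝ) : IsSelfAdjoint (TC c hR V) := TV_sa _ _ _ _

/-- the group of a self-adjoint operator -/
noncomputable def Gr (grp : S_Grp) (S : L2 (Site d) →L[ℂ] L2 (Site d)) (hS : IsSelfAdjoint S) :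
    UG (L2 (Site d)) := (grp (Site d) S hS).choose

lemma Gr_gen (grp : S_Grp) (S : L2 (Site d) →L[ℂ] L2 (Site d)) (hS : IsSelfAdjoint S) :
    Gen (Gr grp S hS) S := (grp (Site d) S hS).choose_spec

/-- the group of `h(H_V)` -/
noncomputable def Wh (grp : S_Grp) (c : ℝ) (hR : 0 ≤ R) (h : ℝ → ℝ) (V : Site d → ℝ) :
    UG (L2 (Site d)) := Gr grp (fc h (TC c hR V)) (fc_sa h _)

/-- the group of `h(T + κ |e⟩⟨e|)` -/
noncomputable def Uh (grp : S_Grp) (h : ℝ → ℝ) (T : L2 (Site d) →L[ℂ] L2 (Site d)) (κ : ℝ) :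
    UG (L2 (Site d)) := Gr grp (fc h (pt T (dl 0) κ)) (fc_sa h _)

lemma Gr_congr (grp : S_Grp) {S S' : L2 (Site d) →L[ℂ] L2 (Site d)} (h : S = S')
    (hS : IsSelfAdjoint S) (hS' : IsSelfAdjoint S') : Gr grp S hS = Gr grp S' hS' := by
  subst h
  rfl

lemma Uh_eq (grp : S_Grp) (h : ℝ → ℝ) (hR : 0 ≤ R) {V : Site d → ℝ} (hV : ∀ x, |V x| ≤ R) {κ : ℝ}
    (hκ : |κ| ≤ R) : Uh grp h (TC c hR (Function.update V 0 0)) κ =
      Wh grp c hR h (Function.update V 0 κ) := by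
  unfold Uh Wh
  exact Gr_congr grp (by rw [pt_TC hR hV hκ]) _ _

variable {h f g : ℝ → ℝ} {ev : (Site d → ℝ) → UG (L2 (Site d))}

theorem fic_lat (grp : S_Grp) (cu : Cur h f g) (hR : 0 ≤ R) (hev : ∀ V, IsGrp c V (ev V))
    {V : Site d → ℝ} (hV : ∀ x, |V x| ≤ R) :
    Fic (TC c hR (Function.update V 0 0)) (dl 0) h f g (fun κ => ev (Function.update V 0 κ))
      (Uh grp h (TC c hR (Function.update V 0 0))) where
  sa := TC_sa _ _
  he := STAT.norm_dl 0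
  cur := cu
  gen κ := by
    have h0 : ∀ x, |Function.update V 0 0 x| ≤ R := upd_le hV (by simpa using hR)
    have h1 := gen_ev hev V R 0 κ h0
    rw [zero_add] at h1
    rw [TC_eq hR h0]
    exact h1
  gen' κ := Gr_gen _ _ _

lemma HGood.sub {ι : Type} {W' W : UG (L2 ι)} {v : L2 ι →L[ℂ] L2 ι} {Nk : ℕ → ℕ} {ek : ℕ → ℝ}
    {B : L2 ι →L[ℂ] L2 ι} (H : HGood W' W v Nk ek B) {φ : ℕ → ℕ} (hφ : Tendsto φ atTop atTop) :
    HGood W' W v (fun k => Nk (φ k)) (fun k => ek (φ k)) B :=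
  ⟨fun x => ⟨(H.1 x).1.comp hφ, (H.1 x).2.comp hφ⟩,
    fun x => ⟨(H.2 x).1.comp hφ, (H.2 x).2.comp hφ⟩⟩

/-- the deterministic core: the fibre over the potential away from the origin -/
theorem fib_zeroc (grp : S_Grp) (cyc : S_Cyc) (str : S_Str) (lim : S_Lim) (cu : Cur h f g)
    (hR : 0 ≤ R) (hev : ∀ V, IsGrp c V (ev V)) (ρ : Measure ℝ) [IsProbabilityMeasure ρ]
    {D : ℝ≥0} (hρ : ρ ≤ D • (volume : Measure ℝ)) (hρR : ∀ᵐ κ ∂ρ, |κ| ≤ R) (V : Site d → ℝ)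
    (hV : ∀ x, |V x| ≤ R) {Nk Mk : ℕ → ℕ} (hNk : Tendsto Nk atTop atTop)
    (hMk : Tendsto Mk atTop atTop)
    (hsep : Fic.Sepa (TC c hR (Function.update V 0 0)) (dl 0) f g Mk)
    (v : ℝ → L2 (Site d) →L[ℂ] L2 (Site d)) (hv : Continuous v)
    (hfr : ∀ κ κ', FR (v κ - v κ')) {B : ℝ → L2 (Site d) →L[ℂ] L2 (Site d)}
    (hB : ∀ᵐ κ ∂ρ, HGood (Wh grp c hR h (Function.update V 0 κ))
      (ev (Function.update V 0 κ)) (v κ) Nk (fun k => ep (Mk k)) (B κ)) :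
    ∀ᵐ κ ∂ρ, B κ (dl 0) = 0 := by
  have hU : Fam (fun κ => ev (Function.update V 0 κ)) (dl 0) := t_FAM ALL.a_UN d c ev hev V
  have F := fic_lat grp cu hR hev hV
  have H : CycG (fun κ => ev (Function.update V 0 κ))
      (Uh grp h (TC c hR (Function.update V 0 0))) (dl 0) :=
    cyc (Site d) _ F.sa (dl 0) _ _ F.gen h f g cu F.gen'
  refine fibHc F str lim H hU ρ hρ hρR hNk hMk hsep v hv hfr ?_
  filter_upwards [hB, hρR] with κ h1 h2
  rw [Uh_eq grp h hR hV h2]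
  exact h1

theorem zLVc (grp : S_Grp) (cyc : S_Cyc) (str : S_Str) (lim : S_Lim) (sep : S_Sep) (ce : S_CE)
    (cu : Cur h f g) (hR : 0 ≤ R) (hev : ∀ V, IsGrp c V (ev V)) (ρ : Measure ℝ)
    [IsProbabilityMeasure ρ] {D : ℝ≥0} (hρ : ρ ≤ D • (volume : Measure ℝ))
    (hρR : ∀ᵐ κ ∂ρ, |κ| ≤ R) {v : (Site d → ℝ) → L2 (Site d) →L[ℂ] L2 (Site d)} (hv : LV v) :
    Tendsto (fun N : ℕ => ∫⁻ V, ‖gP (Wh grp c hR h V) (ev V) (v V) N (dl 0)‖ₑ ^ 2
      ∂(Measure.infinitePi fun _ : Site d => ρ)) atTop (𝓝 0) := by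
  set P : Measure (Site d → ℝ) := Measure.infinitePi fun _ : Site d => ρ with hP
  have hW' : CE (Wh grp c hR h) := ce d c R hR h cu.hcont _ fun V => Gr_gen _ _ _
  obtain ⟨Nk, Mk, b, hNk, hMk, hb, hL2, -, hgood⟩ := vlimH hW' (ce_id hev) hv.cv ρ
  have hmp := mp_update (d := d) ρ
  obtain ⟨b', hb', hbb'⟩ := hb
  have hmeas : MeasurableSet {V : Site d → ℝ | b' V = 0} := by
    have e1 : {V : Site d → ℝ | b' V = 0} = (fun V => ‖b' V‖) ⁻¹' {0} := by
      ext V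
      simp
    rw [e1]
    exact hb'.norm.measurable (measurableSet_singleton 0)
  have hg2 : ∀ᵐ p ∂(P.prod ρ), ∃ B : L2 (Site d) →L[ℂ] L2 (Site d),
      HGood (Wh grp c hR h (Function.update p.1 0 p.2)) (ev (Function.update p.1 0 p.2))
        (v (Function.update p.1 0 p.2)) Nk (fun k => ep (Mk k)) B ∧
          B (dl 0) = b' (Function.update p.1 0 p.2) := by
    refine hmp.quasiMeasurePreserving.ae (p := fun V => ∃ B : L2 (Site d) →L[ℂ] L2 (Site d),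
      HGood (Wh grp c hR h V) (ev V) (v V) Nk (fun k => ep (Mk k)) B ∧
        B (dl 0) = b' V) ?_
    filter_upwards [hgood, hbb'] with V hV hVb
    obtain ⟨B, hB, hBb⟩ := hV
    exact ⟨B, hB, hBb.trans hVb⟩
  have hg3 := Measure.ae_ae_of_ae_prod hg2
  have hbd : ∀ᵐ V ∂P, ∀ x, |V x| ≤ R := by
    rw [ae_all_iff]
    intro x
    exact (measurePreserving_eval_infinitePi (fun _ : Site d => ρ) x).quasiMeasurePreserving.ae hρR
  have hsep := sep d c R hR ρ inferInstance D hρ hρR h f g cu Mk hMk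
  have key : ∀ᵐ V ∂P, ∀ᵐ κ ∂ρ, b' (Function.update V 0 κ) = 0 := by
    filter_upwards [hg3, hbd, hsep] with V hV hVR hVs
    obtain ⟨φ, hφ, hVs⟩ := hVs
    classical
    set B : ℝ → L2 (Site d) →L[ℂ] L2 (Site d) := fun κ =>
      if h : ∃ B : L2 (Site d) →L[ℂ] L2 (Site d),
        HGood (Wh grp c hR h (Function.update V 0 κ)) (ev (Function.update V 0 κ))
          (v (Function.update V 0 κ)) Nk (fun k => ep (Mk k)) B ∧
            B (dl 0) = b' (Function.update V 0 κ)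
      then h.choose else 0 with hB
    have hBg : ∀ᵐ κ ∂ρ, HGood (Wh grp c hR h (Function.update V 0 κ))
        (ev (Function.update V 0 κ)) (v (Function.update V 0 κ)) Nk (fun k => ep (Mk k))
          (B κ) ∧ B κ (dl 0) = b' (Function.update V 0 κ) := by
      filter_upwards [hV] with κ hκ
      simp only [hB]
      rw [dif_pos hκ]
      exact hκ.choose_spec
    have hz := fib_zeroc grp cyc str lim cu hR hev ρ hρ hρR V hVR
      (hNk.comp hφ.tendsto_atTop) (hMk.comp hφ.tendsto_atTop) hVs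
      (fun κ => v (Function.update V 0 κ))
      (hv.cu V (fun κ => κ) continuous_id) (fun κ κ' => hv.fr V κ κ') (B := B)
      (by filter_upwards [hBg] with κ hκ using HGood.sub hκ.1 hφ.tendsto_atTop)
    filter_upwards [hBg, hz] with κ h1 h2
    rw [← h1.2, h2]
  have hprod : ∀ᵐ p ∂(P.prod ρ),
      Function.update p.1 0 p.2 ∈ {V : Site d → ℝ | b' V = 0} := by
    refine (Measure.ae_prod_iff_ae_ae ?_).2 key
    exact hmp.measurable hmeas
  have hfin : ∀ᵐ V ∂P, V ∈ {V : Site d → ℝ | b' V = 0} := by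
    rw [hP, ← hmp.map_eq]
    exact (ae_map_iff hmp.measurable.aemeasurable hmeas).2 hprod
  refine hL2.congr fun N => ?_
  refine lintegral_congr_ae ?_
  filter_upwards [hfin, hbb'] with V hV hVb
  have h0 : b V = 0 := hVb.trans hV
  rw [h0, sub_zero]

theorem zCvc (grp : S_Grp) (cyc : S_Cyc) (str : S_Str) (lim : S_Lim) (sep : S_Sep) (ce : S_CE)
    (cu : Cur h f g) (hR : 0 ≤ R) (hev : ∀ V, IsGrp c V (ev V)) (ρ : Measure ℝ)
    [IsProbabilityMeasure ρ] {D : ℝ≥0} (hρ : ρ ≤ D • (volume : Measure ℝ))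
    (hρR : ∀ᵐ κ ∂ρ, |κ| ≤ R) {X : (Site d → ℝ) → L2 (Site d) →L[ℂ] L2 (Site d)} (hX : Cv X) :
    Tendsto (fun N : ℕ => eLpNorm (fun V => gP (Wh grp c hR h V) (ev V) (X V) N (dl 0)) 2
      (Measure.infinitePi fun _ : Site d => ρ)) atTop (𝓝 0) := by
  set P : Measure (Site d → ℝ) := Measure.infinitePi fun _ : Site d => ρ with hP
  have hW := ce_id hev
  have hW' : CE (Wh grp c hR h) := ce d c R hR h cu.hcont _ fun V => Gr_gen _ _ _
  have hc0 : StronglyMeasurable fun _ : Site d → ℝ => (dl 0 : L2 (Site d)) :=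
    stronglyMeasurable_const
  rw [ENNReal.tendsto_nhds_zero]
  intro ε hε
  have h2 : ε / 2 ≠ 0 := by simp [hε.ne']
  obtain ⟨v, hv, hvX⟩ := app hX ρ h2
  have hz := zLVc grp cyc str lim sep ce cu hR hev ρ hρ hρR hv
  have hev1 := (tendsto_order.1 hz).2 ((ε / 2) ^ 2) (by positivity)
  filter_upwards [hev1, eventually_gt_atTop 0] with N hN hN0
  have e : (fun V => gP (Wh grp c hR h V) (ev V) (X V) N (dl 0)) =
      (fun V => gP (Wh grp c hR h V) (ev V) (v V) N (dl 0)) +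
        fun V => gP (Wh grp c hR h V) (ev V) (X V - v V) N (dl 0) := by
    funext V
    rw [Pi.add_apply, ← gP_vadd, add_sub_cancel]
  rw [e]
  have hD : Cv fun V => X V - v V := hX.sub hv.cv
  refine (eLpNorm_add_le (sm_gP hW' hW hv.cv hc0 N).aestronglyMeasurable
    (sm_gP hW' hW hD hc0 N).aestronglyMeasurable (by norm_num)).trans ?_
  have h5 := avg_le (W' := fun V : Site d → ℝ => Wh grp c hR h V) hW hD ρ N hN0
  have h6 : eLpNorm (fun V => gP (Wh grp c hR h V) (ev V) (X V - v V) N (dl 0)) 2 P ≤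
      ε / 2 := by
    refine n2_le _ _ _ (h5.trans ?_)
    rw [← n2_sq]
    have h7 : (fun V => (X V - v V) (dl 0)) = fun V => X V (dl 0) - v V (dl 0) := by
      funext V
      rw [_root_.sub_apply]
    rw [h7]
    exact pow_le_pow_left₀ (zero_le) hvX 2
  calc _ ≤ ε / 2 + ε / 2 := add_le_add (n2_le _ _ _ hN.le) h6
    _ = ε := ENNReal.add_halves ε

end lat

end Pool.Agent.Helper26.Cc
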