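import Pool.Agent.Helper26.Cc.Stm

/-! # Functions of the first energy -/

set_option autoImplicit false

open MeasureTheory Filter Topology ProbabilityTheory
open scoped BigOperators ENNReal NNReal InnerProductSpace ComplexConjugate

namespace Pool.Agent.Helper26.Cc

open Pool.Agent.H5R2.NB Pool.Agent.Helper26.Nb Pool.Agent.Helper26.Cm Pool.Agent.Helper26.Dj
  Pool.Agent.Helper26.Rg
open Pool.Agent.TH369.AN (Rz pt ro cp fc)
open Pool.Agent.TH369.MU (zk ep)

/-- FUN: functions of the first energy in the correlation measure -/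
def S_Fun : Prop :=
  ∀ (d : ℕ) (c : ℝ) (R : ℝ) (hR : 0 ≤ R) (ρ : Measure ℝ), IsProbabilityMeasure ρ →
    (∀ᵐ κ ∂ρ, |κ| ≤ R) → ∀ ev : (Site d → ℝ) → UG (L2 (Site d)), (∀ V, IsGrp c V (ev V)) →
      ∀ X : (Site d → ℝ) → L2 (Site d) →L[ℂ] L2 (Site d), Cv X →
        ∀ m : Measure (ℝ × ℝ), IsFiniteMeasure m →
          (∀ s t : ℝ, ∫ p, Complex.exp (Complex.I * (s * p.1 + t * p.2)) ∂m =
            ∫ V, ⟪X V (dl 0), (ev V).U (-s) (X V ((ev V).U (-t) (dl 0)))⟫_ℂ
              ∂(Measure.infinitePi fun _ : Site d => ρ)) →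
          ∀ h : ℝ → ℝ, Continuous h → ∀ W' : (Site d → ℝ) → UG (L2 (Site d)),
            (∀ V, Gen (W' V) (fc h (TC c hR V))) → ∀ s t : ℝ,
              ∫ p, Complex.exp (Complex.I * (s * h p.1 + t * p.2)) ∂m =
                ∫ V, ⟪X V (dl 0), (W' V).U (-s) (X V ((ev V).U (-t) (dl 0)))⟫_ℂ
                  ∂(Measure.infinitePi fun _ : Site d => ρ)

end Pool.Agent.Helper26.Cc
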