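import Pool.Agent.Helper26.Cc.Stm

/-! # Existence of the correlation measure -/

set_option autoImplicit false

open MeasureTheory Filter Topology ProbabilityTheory
open scoped BigOperators ENNReal NNReal InnerProductSpace ComplexConjugate

namespace Pool.Agent.Helper26.Cc

open Pool.Agent.H5R2.NB Pool.Agent.Helper26.Nb Pool.Agent.Helper26.Cm Pool.Agent.Helper26.Dj
  Pool.Agent.Helper26.Rg
open Pool.Agent.TH369.AN (Rz pt ro cp fc)
open Pool.Agent.TH369.MU (zk ep)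

/-- EX: existence of the correlation measure -/
def S_Ex : Prop :=
  ∀ (d : ℕ) (c : ℝ) (R : ℝ), 0 ≤ R → ∀ (ρ : Measure ℝ), IsProbabilityMeasure ρ →
    (∀ᵐ κ ∂ρ, |κ| ≤ R) → ∀ ev : (Site d → ℝ) → UG (L2 (Site d)), (∀ V, IsGrp c V (ev V)) →
      ∀ X : (Site d → ℝ) → L2 (Site d) →L[ℂ] L2 (Site d), Cv X →
        ∃ m : Measure (ℝ × ℝ), IsFiniteMeasure m ∧
          ∀ s t : ℝ, ∫ p, Complex.exp (Complex.I * (s * p.1 + t * p.2)) ∂m =
            ∫ V, ⟪X V (dl 0), (ev V).U (-s) (X V ((ev V).U (-t) (dl 0)))⟫_ℂ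
              ∂(Measure.infinitePi fun _ : Site d => ρ)

end Pool.Agent.Helper26.Cc
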