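import Pool.Agent.Helper26.Cc.Fif
import Pool.Agent.Helper26.Cc.Stm2
import Pool.Agent.Helper26.Cc.Stm4
import Pool.Agent.Helper26.Wn.Vel

/-! # Curves have mass zero -/

set_option autoImplicit false
set_option linter.unusedSectionVars false

open MeasureTheory Filter Topology ProbabilityTheory
open scoped BigOperators ENNReal NNReal ComplexConjugate InnerProductSpace

namespace Pool.Agent.Helper26.Cc

open Pool.Agent.H5R2.NB Pool.Agent.Helper26.Nb Pool.Agent.Helper26.Cm Pool.Agent.Helper26.Dj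
  Pool.Agent.Helper26.Rg Pool.Agent.Helper26.Wn
open Pool.Agent.TH369.AN (Rz pt pt_sa fc ro)
open Pool.Agent.TH369.MU (zk ep)

variable {d : ℕ} {c R : ℝ} {h f g : ℝ → ℝ} {ev : (Site d → ℝ) → UG (L2 (Site d))}

/-- graphs have mass zero -/
theorem graph0 (grp : S_Grp) (cyc : S_Cyc) (str : S_Str) (lim : S_Lim) (sep : S_Sep) (ce : S_CE)
    (fun' : S_Fun) (cu : Cur h f g) (hR : 0 ≤ R) (hev : ∀ V, IsGrp c V (ev V)) (ρ : Measure ℝ)
    [IsProbabilityMeasure ρ] {D : ℝ≥0} (hρ : ρ ≤ D • (volume : Measure ℝ))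
    (hρR : ∀ᵐ κ ∂ρ, |κ| ≤ R) {X : (Site d → ℝ) → L2 (Site d) →L[ℂ] L2 (Site d)} (hX : Cv X)
    (m : Measure (ℝ × ℝ)) [IsFiniteMeasure m]
    (hm : ∀ s t : ℝ, ∫ p, Complex.exp (Complex.I * (s * p.1 + t * p.2)) ∂m =
      ∫ V, ⟪X V (dl 0), (ev V).U (-s) (X V ((ev V).U (-t) (dl 0)))⟫_ℂ
        ∂(Measure.infinitePi fun _ : Site d => ρ)) :
    m {p | p.1 = f p.2} = 0 := by
  have hW' : CE (Wh grp c hR h) := ce d c R hR h cu.hcont _ fun V => Gr_gen _ _ _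
  have hz := zCvc grp cyc str lim sep ce cu hR hev ρ hρ hρR hX
  have hav := cr_avg hW' (ce_id hev) hX (sq_lim hz) (ml_dl (μ := ρ) hX)
  have hF := fun' d c R hR ρ inferInstance hρR ev hev X hX m inferInstance hm h cu.hcont
    (Wh grp c hR h) (fun V => Gr_gen _ _ _)
  have hg : Measurable fun p : ℝ × ℝ => h p.1 - p.2 :=
    (cu.hcont.measurable.comp measurable_fst).sub measurable_snd
  have h1 := atom_zero m (fun p => h p.1 - p.2) hg (by
    refine hav.congr fun N => ?_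
    congr 1
    refine intervalIntegral.integral_congr fun s _ => ?_
    have h2 := hF s (-s)
    have e1 : cr ρ (Wh grp c hR h) (fun V => ev V) X (fun V => X V (dl 0)) (fun _ => dl 0) s =
        ∫ V, ⟪X V (dl 0), (Wh grp c hR h V).U (-s) (X V ((ev V).U (-(-s)) (dl 0)))⟫_ℂ
          ∂(Measure.infinitePi fun _ : Site d => ρ) := by
      unfold cr
      rw [neg_neg]
    rw [e1, ← h2]
    refine integral_congr_ae (Eventually.of_forall fun p => ?_)
    simp only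
    congr 1
    push_cast
    ring)
  have e1 : {p : ℝ × ℝ | h p.1 - p.2 = 0} = {p | p.1 = f p.2} := by
    ext p
    simp only [Set.mem_ofPred_eq, sub_eq_zero]
    constructor
    · intro h2
      rw [← h2, cu.hf]
    · intro h2
      rw [h2, cu.fh]
  rwa [e1] at h1

/-- curves have mass zero -/
theorem curve0 (grp : S_Grp) (cyc : S_Cyc) (str : S_Str) (lim : S_Lim) (sep : S_Sep) (ce : S_CE)
    (fun' : S_Fun) (mar : S_Mar) (cur : S_Cur) (hR : 0 ≤ R) (hev : ∀ V, IsGrp c V (ev V))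
    (ρ : Measure ℝ) [IsProbabilityMeasure ρ] {D : ℝ≥0} (hρ : ρ ≤ D • (volume : Measure ℝ))
    (hρR : ∀ᵐ κ ∂ρ, |κ| ≤ R) {X : (Site d → ℝ) → L2 (Site d) →L[ℂ] L2 (Site d)} (hX : Cv X)
    (m : Measure (ℝ × ℝ)) [IsFiniteMeasure m]
    (hm : ∀ s t : ℝ, ∫ p, Complex.exp (Complex.I * (s * p.1 + t * p.2)) ∂m =
      ∫ V, ⟪X V (dl 0), (ev V).U (-s) (X V ((ev V).U (-t) (dl 0)))⟫_ℂ
        ∂(Measure.infinitePi fun _ : Site d => ρ)) :
    (∀ γ : ℝ → ℝ × ℝ, ContDiff ℝ 1 γ → m {p | p ∈ Set.range γ ∧ p.1 ≠ p.2} = 0) ∧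
      ∀ N : Set ℝ, volume N = 0 → m (N ×ˢ Set.univ) = 0 ∧ m (Set.univ ×ˢ N) = 0 := by
  have hN := mar d c R ρ inferInstance D hρ hρR ev hev X hX m inferInstance hm
  refine ⟨cur m inferInstance hN fun h f g cu => ?_, hN⟩
  exact graph0 grp cyc str lim sep ce fun' cu hR hev ρ hρ hρR hX m hm

lemma af_le {μ : Measure ℝ} {D : ℝ≥0} (hμ : μ ≤ D • (volume : Measure ℝ)) (o : ℝ) :
    μ.map (af 1 o) ≤ D • (volume : Measure ℝ) := by
  have h1 : μ.map (af 1 o) ≤ (D • (volume : Measure ℝ)).map (af 1 o) :=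
    Measure.map_mono hμ (af_cont 1 o).measurable
  have e : af 1 o = fun x => x + o := by
    funext x
    unfold af
    ring
  rw [e] at h1 ⊢
  rw [Measure.map_smul, (measurePreserving_add_right volume o).map_eq] at h1
  exact h1

lemma af_bd {μ : Measure ℝ} {R : ℝ} (hR : ∀ᵐ κ ∂μ, |κ| ≤ R) (o : ℝ) :
    ∀ᵐ κ ∂(μ.map (af 1 o)), |κ| ≤ |R| + |o| := by
  rw [ae_map_iff (af_cont 1 o).aemeasurable (measurableSet_le (by fun_prop) (by fun_prop))]
  filter_upwards [hR] with κ hκ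
  unfold af
  refine (abs_add_le _ _).trans ?_
  rw [one_mul]
  have := le_abs_self R
  linarith

lemma c2_shift (hev : ∀ V, IsGrp c V (ev V)) (μ : Measure ℝ) [IsProbabilityMeasure μ] (o : ℝ)
    {X : (Site d → ℝ) → L2 (Site d) →L[ℂ] L2 (Site d)} (hX : Cv X) (s t : ℝ) :
    c2 μ ev 1 o X s t = ∫ V, ⟪X (pot (af 1⁻¹ (-(1⁻¹ * o))) V) (dl 0), (ev V).U (-s)
        (X (pot (af 1⁻¹ (-(1⁻¹ * o))) V) ((ev V).U (-t) (dl 0)))⟫_ℂ
      ∂(Measure.infinitePi fun _ : Site d => μ.map (af 1 o)) := by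
  have hmp := af_mp (d := d) 1 o μ
  have hX' : Cv fun V => X (pot (af 1⁻¹ (-(1⁻¹ * o))) V) := cv_pot hX (af_cont _ _)
  unfold c2
  have hc0 : StronglyMeasurable fun _ : Site d → ℝ => (dl 0 : L2 (Site d)) :=
    stronglyMeasurable_const
  have hW := ce_id hev
  have hmeas : AEStronglyMeasurable (fun V : Site d → ℝ =>
      ⟪X (pot (af 1⁻¹ (-(1⁻¹ * o))) V) (dl 0), (ev V).U (-s)
        (X (pot (af 1⁻¹ (-(1⁻¹ * o))) V) ((ev V).U (-t) (dl 0)))⟫_ℂ)
      ((Measure.infinitePi fun _ : Site d => μ).map (pot (af 1 o))) :=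
    ((hX'.sm 0).inner ((hW.cv (-s)).sm_apply (hX'.sm_apply
      ((hW.cv (-t)).sm_apply hc0)))).aestronglyMeasurable
  rw [← hmp.map_eq, integral_map hmp.measurable.aemeasurable hmeas]
  refine integral_congr_ae (Eventually.of_forall fun V => ?_)
  simp only
  rw [pot_af_id 1 o one_ne_zero]

/-- the form with the shifted potential -/
theorem curve1 (grp : S_Grp) (cyc : S_Cyc) (str : S_Str) (lim : S_Lim) (sep : S_Sep) (ce : S_CE)
    (fun' : S_Fun) (mar : S_Mar) (cur : S_Cur) (hev : ∀ V, IsGrp c V (ev V))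
    (μ : Measure ℝ) [IsProbabilityMeasure μ] {D : ℝ≥0} (hμ : μ ≤ D • (volume : Measure ℝ))
    (hμR : ∀ᵐ κ ∂μ, |κ| ≤ R) (o : ℝ)
    {X : (Site d → ℝ) → L2 (Site d) →L[ℂ] L2 (Site d)} (hX : Cv X)
    (m : Measure (ℝ × ℝ)) [IsFiniteMeasure m]
    (hm : ∀ s t : ℝ, ∫ p, Complex.exp (Complex.I * (s * p.1 + t * p.2)) ∂m =
      c2 μ ev 1 o X s t) :
    (∀ γ : ℝ → ℝ × ℝ, ContDiff ℝ 1 γ → m {p | p ∈ Set.range γ ∧ p.1 ≠ p.2} = 0) ∧
      ∀ N : Set ℝ, volume N = 0 → m (N ×ˢ Set.univ) = 0 ∧ m (Set.univ ×ˢ N) = 0 := by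
  have hpr : IsProbabilityMeasure (μ.map (af 1 o)) :=
    Measure.isProbabilityMeasure_map (af_cont 1 o).aemeasurable
  have hX' : Cv fun V => X (pot (af 1⁻¹ (-(1⁻¹ * o))) V) := cv_pot hX (af_cont _ _)
  refine curve0 grp cyc str lim sep ce fun' mar cur (R := |R| + |o|) (by positivity) hev
    (μ.map (af 1 o)) (af_le hμ o) (af_bd hμR o) hX' m fun s t => ?_
  rw [hm s t]
  exact c2_shift hev μ o hX s t

/-- existence of the correlation measure, with the shifted potential -/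
theorem exist1 (ex : S_Ex) (hev : ∀ V, IsGrp c V (ev V)) (μ : Measure ℝ) [IsProbabilityMeasure μ]
    (hμR : ∀ᵐ κ ∂μ, |κ| ≤ R) (o : ℝ)
    {X : (Site d → ℝ) → L2 (Site d) →L[ℂ] L2 (Site d)} (hX : Cv X) :
    ∃ m : Measure (ℝ × ℝ), IsFiniteMeasure m ∧
      ∀ s t : ℝ, ∫ p, Complex.exp (Complex.I * (s * p.1 + t * p.2)) ∂m = c2 μ ev 1 o X s t := by
  have hpr : IsProbabilityMeasure (μ.map (af 1 o)) :=
    Measure.isProbabilityMeasure_map (af_cont 1 o).aemeasurable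
  have hX' : Cv fun V => X (pot (af 1⁻¹ (-(1⁻¹ * o))) V) := cv_pot hX (af_cont _ _)
  obtain ⟨m, h1, h2⟩ := ex d c (|R| + |o|) (by positivity) (μ.map (af 1 o)) hpr (af_bd hμR o) ev
    hev _ hX'
  refine ⟨m, h1, fun s t => ?_⟩
  rw [h2 s t, c2_shift hev μ o hX s t]

/-- a finite measure on the plane is determined by its Fourier transform -/
theorem ft_ext {m m' : Measure (ℝ × ℝ)} [IsFiniteMeasure m] [IsFiniteMeasure m']
    (h : ∀ s t : ℝ, ∫ p, Complex.exp (Complex.I * (s * p.1 + t * p.2)) ∂m =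
      ∫ p, Complex.exp (Complex.I * (s * p.1 + t * p.2)) ∂m') : m = m' := by
  refine Measure.ext_of_charFunDual (funext fun L => ?_)
  rw [charFunDual_apply, charFunDual_apply]
  have e : ∀ p : ℝ × ℝ, Complex.exp (((L p : ℝ) : ℂ) * Complex.I) =
      Complex.exp (Complex.I * ((L (1, 0) : ℝ) * p.1 + (L (0, 1) : ℝ) * p.2)) := by
    intro p
    have h1 : p = p.1 • ((1, 0) : ℝ × ℝ) + p.2 • ((0, 1) : ℝ × ℝ) := by
      ext <;> simp
    have h2 : L p = p.1 * L (1, 0) + p.2 * L (0, 1) := by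
      conv_lhs => rw [h1]
      rw [map_add, map_smul, map_smul, smul_eq_mul, smul_eq_mul]
    rw [h2]
    congr 1
    push_cast
    ring
  simp only [e]
  exact h _ _

end Pool.Agent.Helper26.Cc
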