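import Pool.Agent.Helper26.Cc.Stm3
import Mathlib.MeasureTheory.Measure.Hausdorff

/-! # From `C¹` curves to Lipschitz curves -/

set_option autoImplicit false

open MeasureTheory Filter Topology
open scoped BigOperators ENNReal NNReal

namespace Pool.Agent.Helper26.Cc

theorem rect (w1 : S_W1) : S_Rect := by
  intro m hfin hN hC K γ hγ
  have h1 : LipschitzWith K fun t => (γ t).1 := by
    have := LipschitzWith.prod_fst.comp hγ
    simpa [Function.comp_def] using this
  have h2 : LipschitzWith K fun t => (γ t).2 := by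
    have := LipschitzWith.prod_snd.comp hγ
    simpa [Function.comp_def] using this
  choose F1 hF1 hv1 using fun L n : ℕ => w1 _ K h1 L (1 / ((n : ℝ) + 1)) (by positivity)
  choose F2 hF2 hv2 using fun L n : ℕ => w1 _ K h2 L (1 / ((n : ℝ) + 1)) (by positivity)
  set Bad : ℕ → ℕ → Set ℝ := fun L n =>
    {x | x ∈ Set.Icc (-(L : ℝ)) L ∧ (γ x).1 ≠ F1 L n x} ∪
      {x | x ∈ Set.Icc (-(L : ℝ)) L ∧ (γ x).2 ≠ F2 L n x} with hBad
  set B : ℕ → Set ℝ := fun L => ⋂ n, Bad L n with hB
  have hB0 : ∀ L, volume (B L) = 0 := by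
    intro L
    have hle : ∀ n : ℕ, volume (B L) ≤ ENNReal.ofReal (2 * (1 / ((n : ℝ) + 1))) := by
      intro n
      refine (measure_mono (Set.iInter_subset _ n)).trans ((measure_union_le _ _).trans ?_)
      refine (add_le_add (hv1 L n) (hv2 L n)).trans ?_
      rw [← ENNReal.ofReal_add (by positivity) (by positivity)]
      exact ENNReal.ofReal_le_ofReal (by linarith)
    have ht : Tendsto (fun n : ℕ => ENNReal.ofReal (2 * (1 / ((n : ℝ) + 1)))) atTop (𝓝 0) := by
      have h3 : Tendsto (fun n : ℕ => 2 * (1 / ((n : ℝ) + 1))) atTop (𝓝 (2 * 0)) :=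
        tendsto_one_div_add_atTop_nhds_zero_nat.const_mul 2
      have h4 := ENNReal.tendsto_ofReal h3
      simpa using h4
    exact le_antisymm (ge_of_tendsto' ht hle) zero_le
  have hI0 : ∀ L, volume ((fun t => (γ t).1) '' B L) = 0 := by
    intro L
    have h := h1.hausdorffMeasure_image_le (zero_le_one : (0 : ℝ) ≤ 1) (B L)
    rw [hausdorffMeasure_real, hB0, mul_zero] at h
    exact le_antisymm h zero_le
  have hsub : {p : ℝ × ℝ | p ∈ Set.range γ ∧ p.1 ≠ p.2} ⊆
      ⋃ L : ℕ, (((fun t => (γ t).1) '' B L) ×ˢ Set.univ) ∪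
        ⋃ n : ℕ, {p | p ∈ Set.range (fun t => (F1 L n t, F2 L n t)) ∧ p.1 ≠ p.2} := by
    rintro p ⟨⟨t, rfl⟩, hp⟩
    obtain ⟨L, hL⟩ := exists_nat_ge |t|
    refine Set.mem_iUnion.2 ⟨L, ?_⟩
    by_cases hb : t ∈ B L
    · exact Or.inl ⟨⟨t, hb, rfl⟩, trivial⟩
    · right
      rw [hB] at hb
      simp only [Set.mem_iInter, not_forall] at hb
      obtain ⟨n, hn⟩ := hb
      refine Set.mem_iUnion.2 ⟨n, ⟨t, ?_⟩, hp⟩
      have hI : t ∈ Set.Icc (-(L : ℝ)) L := abs_le.1 hL
      have e1 : (γ t).1 = F1 L n t := by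
        by_contra hne
        exact hn (Or.inl ⟨hI, hne⟩)
      have e2 : (γ t).2 = F2 L n t := by
        by_contra hne
        exact hn (Or.inr ⟨hI, hne⟩)
      exact Prod.ext e1.symm e2.symm
  refine measure_mono_null hsub (measure_iUnion_null fun L => measure_union_null ?_ ?_)
  · exact (hN _ (hI0 L)).1
  · exact measure_iUnion_null fun n => hC _ ((hF1 L n).prodMk (hF2 L n))

end Pool.Agent.Helper26.Cc
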