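import Pool.Agent.Helper26.Cc.Fin0
import Pool.Agent.Helper26.Cc.Rect
import Pool.Agent.Helper36.Cc.Base
import Pool.Agent.Helper41.Cc.W1
import Pool.Agent.Helper83.Cc.Ex

/-! # Assembly, final form -/

set_option autoImplicit false
set_option linter.unusedSectionVars false

open MeasureTheory Filter Topology ProbabilityTheory
open scoped BigOperators ENNReal NNReal ComplexConjugate InnerProductSpace

namespace Pool.Agent.Helper26.Cc

open Pool.Agent.H5R2.NB Pool.Agent.Helper26.Nb Pool.Agent.Helper26.Cm Pool.Agent.Helper26.Dj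
  Pool.Agent.Helper26.Rg Pool.Agent.Helper26.Wn

variable {d : ℕ} {c R : ℝ} {ev : (Site d → ℝ) → UG (L2 (Site d))}

/-- rectifiable curves have mass zero -/
theorem curves (hev : ∀ V, IsGrp c V (ev V))
    (μ : Measure ℝ) [IsProbabilityMeasure μ] {D : ℝ≥0} (hμ : μ ≤ D • (volume : Measure ℝ))
    (hμR : ∀ᵐ κ ∂μ, |κ| ≤ R) (o : ℝ)
    {X : (Site d → ℝ) → L2 (Site d) →L[ℂ] L2 (Site d)} (hX : Cv X)
    (m : Measure (ℝ × ℝ)) [IsFiniteMeasure m]
    (hm : ∀ s t : ℝ, ∫ p, Complex.exp (Complex.I * (s * p.1 + t * p.2)) ∂m =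
      c2 μ ev 1 o X s t) :
    ∀ (K : ℝ≥0) (γ : ℝ → ℝ × ℝ), LipschitzWith K γ →
      m {p | p ∈ Set.range γ ∧ p.1 ≠ p.2} = 0 :=
  curves0 Pool.Agent.Helper36.Cc.iso Pool.Agent.Helper36.Cc.dia (rect Pool.Agent.Helper41.Cc.w1)
    hev μ hμ hμR o hX m hm

/-- the correlation measure exists -/
theorem exist (hev : ∀ V, IsGrp c V (ev V))
    (μ : Measure ℝ) [IsProbabilityMeasure μ] (hμR : ∀ᵐ κ ∂μ, |κ| ≤ R) (o : ℝ)
    {X : (Site d → ℝ) → L2 (Site d) →L[ℂ] L2 (Site d)} (hX : Cv X) :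
    ∃ m : Measure (ℝ × ℝ), IsFiniteMeasure m ∧
      ∀ s t : ℝ, ∫ p, Complex.exp (Complex.I * (s * p.1 + t * p.2)) ∂m = c2 μ ev 1 o X s t :=
  exist1 Pool.Agent.Helper83.Cc.ex hev μ hμR o hX

end Pool.Agent.Helper26.Cc
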