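import Mathlib

/-! # From `C¹` curves to rectifiable curves -/

set_option autoImplicit false

open MeasureTheory Filter Topology
open scoped BigOperators ENNReal NNReal

namespace Pool.Agent.Helper26.Cc

/-- W1D: Lusin property of Lipschitz functions of one variable -/
def S_W1 : Prop :=
  ∀ (f : ℝ → ℝ) (K : ℝ≥0), LipschitzWith K f → ∀ L η : ℝ, 0 < η →
    ∃ F : ℝ → ℝ, ContDiff ℝ 1 F ∧
      volume {x : ℝ | x ∈ Set.Icc (-L) L ∧ f x ≠ F x} ≤ ENNReal.ofReal η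

/-- RECT: from `C¹` curves to Lipschitz curves -/
def S_Rect : Prop :=
  ∀ m : Measure (ℝ × ℝ), IsFiniteMeasure m →
    (∀ N : Set ℝ, volume N = 0 → m (N ×ˢ Set.univ) = 0 ∧ m (Set.univ ×ˢ N) = 0) →
    (∀ γ : ℝ → ℝ × ℝ, ContDiff ℝ 1 γ → m {p | p ∈ Set.range γ ∧ p.1 ≠ p.2} = 0) →
      ∀ (K : ℝ≥0) (γ : ℝ → ℝ × ℝ), LipschitzWith K γ →
        m {p | p ∈ Set.range γ ∧ p.1 ≠ p.2} = 0

end Pool.Agent.Helper26.Cc
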