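import Pool.Agent.Helper26.Cc.Fig
import Pool.Agent.Helper26.Cc.Stm3
import Pool.Agent.Helper12.Cc.Two
import Pool.Agent.Helper12.Cc.Big
import Pool.Agent.Helper16.Cc.Grp
import Pool.Agent.Helper41.Cc.Lim
import Pool.Agent.Helper41.Cc.Mob
import Pool.Agent.Helper41.Cc.Str
import Pool.Agent.Helper46.Cc.Cur
import Pool.Agent.Helper59.Cc.Fun
import Pool.Agent.Helper83.Cc.Fin
import Pool.Agent.Helper88.Cc.Cyc
import Pool.Agent.Helper90.Cc.CE
import Pool.Agent.Helper93.Cc.Mar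

/-! # Assembly -/

set_option autoImplicit false
set_option linter.unusedSectionVars false

open MeasureTheory Filter Topology ProbabilityTheory
open scoped BigOperators ENNReal NNReal ComplexConjugate InnerProductSpace

namespace Pool.Agent.Helper26.Cc

open Pool.Agent.H5R2.NB Pool.Agent.Helper26.Nb Pool.Agent.Helper26.Cm Pool.Agent.Helper26.Dj
  Pool.Agent.Helper26.Rg Pool.Agent.Helper26.Wn

variable {d : ℕ} {c R : ℝ} {ev : (Site d → ℝ) → UG (L2 (Site d))}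

/-- rectifiable curves have mass zero -/
theorem curves0 (iso : Pool.Agent.Helper83.Cc.S_Iso) (dia : Pool.Agent.Helper83.Cc.S_Dia)
    (rect : S_Rect) (hev : ∀ V, IsGrp c V (ev V))
    (μ : Measure ℝ) [IsProbabilityMeasure μ] {D : ℝ≥0} (hμ : μ ≤ D • (volume : Measure ℝ))
    (hμR : ∀ᵐ κ ∂μ, |κ| ≤ R) (o : ℝ)
    {X : (Site d → ℝ) → L2 (Site d) →L[ℂ] L2 (Site d)} (hX : Cv X)
    (m : Measure (ℝ × ℝ)) [IsFiniteMeasure m]
    (hm : ∀ s t : ℝ, ∫ p, Complex.exp (Complex.I * (s * p.1 + t * p.2)) ∂m =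
      c2 μ ev 1 o X s t) :
    ∀ (K : ℝ≥0) (γ : ℝ → ℝ × ℝ), LipschitzWith K γ →
      m {p | p ∈ Set.range γ ∧ p.1 ≠ p.2} = 0 := by
  have sep := Pool.Agent.Helper83.Cc.sep_fin
    (Pool.Agent.Helper12.Cc.two Pool.Agent.Helper41.Cc.mob) Pool.Agent.Helper12.Cc.big iso dia
  have h := curve1 Pool.Agent.Helper16.Cc.grp Pool.Agent.Helper88.Cc.cyc Pool.Agent.Helper41.Cc.str
    Pool.Agent.Helper41.Cc.lim sep Pool.Agent.Helper90.Cc.ce
    Pool.Agent.Helper59.Cc.fun_ Pool.Agent.Helper93.Cc.mar Pool.Agent.Helper46.Cc.cur hev μ hμ hμR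
    o hX m hm
  exact rect m inferInstance h.2 h.1

end Pool.Agent.Helper26.Cc
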